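import Mathlib.RingTheory.PiTensorProduct
import Pool.Agent.MP_7ebdba_gt.ch.Main
import Pool.Agent.MP_7ebdba_gt.hb.Tube

-- ======== part 0: formerly Pool.Agent.MP_7ebdba_gt.sm.m.Spec
section MrgPart0

-- ======== part 0: formerly Pool.Agent.MP_7ebdba_gt.sm.m.Jet
section MrgPart0

/-! Second order jets at the origin. -/

open scoped ContDiff Topology
open Set Filter Asymptotics

namespace Pool.Agent.MP_7ebdba_gt.sm

variable {F G G' G'' : Type*} [NormedAddCommGroup F] [NormedSpace ℝ F]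
  [NormedAddCommGroup G] [NormedSpace ℝ G] [NormedAddCommGroup G'] [NormedSpace ℝ G']
  [NormedAddCommGroup G''] [NormedSpace ℝ G'']

/-- Taylor's formula of order two. -/
theorem taylor2 {g : F → G} {g' : F → F →L[ℝ] G} {B : F →L[ℝ] F →L[ℝ] G} {a : F}
    (h1 : ∀ᶠ y in 𝓝 a, HasFDerivAt g (g' y) y) (h2 : HasFDerivAt g' B a) :
    (fun y => g (a + y) - g a - g' a y - (1 / 2 : ℝ) • B y y) =o[𝓝 0] fun y => ‖y‖ ^ 2 := by
  have hs := second_derivative_symmetric_of_eventually_of_real h1 h2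
  have ht : Tendsto (fun y : F => a + y) (𝓝 0) (𝓝 a) := by
    have : Continuous fun y : F => a + y := by fun_prop
    simpa using this.tendsto 0
  have h3 : (fun y => g' (a + y) - g' a - B y) =o[𝓝 0] fun y => y := by
    simpa [Function.comp_def] using h2.isLittleO.comp_tendsto ht
  rw [isLittleO_iff] at h3 ⊢
  intro c hc
  obtain ⟨δ, hδ, hb⟩ := Metric.eventually_nhds_iff_ball.1 ((ht.eventually h1).and (h3 hc))
  filter_upwards [Metric.ball_mem_nhds (0 : F) hδ] with y hy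
  have hsub : Metric.closedBall (0 : F) ‖y‖ ⊆ Metric.ball 0 δ :=
    Metric.closedBall_subset_ball (by simpa using hy)
  have hd : ∀ u ∈ Metric.closedBall (0 : F) ‖y‖,
      HasFDerivWithinAt (fun y => g (a + y) - g a - g' a y - (1 / 2 : ℝ) • B y y)
        (g' (a + u) - g' a - B u) (Metric.closedBall 0 ‖y‖) u := by
    intro u hu
    have e1 : HasFDerivAt (fun y => g (a + y)) (g' (a + u)) u := by
      simpa [Function.comp_def] using (hb u (hsub hu)).1.comp u ((hasFDerivAt_id u).const_add a)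
    have e2 := (B.hasFDerivAt (x := u)).clm_apply (hasFDerivAt_id u)
    have e3 := ((e1.sub_const (g a)).sub (g' a).hasFDerivAt).sub (e2.const_smul (1 / 2 : ℝ))
    refine (e3.congr_fderiv ?_).hasFDerivWithinAt
    ext v
    simp only [sub_apply, smul_apply,
      add_apply, ContinuousLinearMap.comp_apply, ContinuousLinearMap.flip_apply,
      ContinuousLinearMap.id_apply, id, hs v u]
    rw [← two_smul ℝ, smul_smul]; norm_num
  have hbd : ∀ u ∈ Metric.closedBall (0 : F) ‖y‖, ‖g' (a + u) - g' a - B u‖ ≤ c * ‖y‖ := by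
    intro u hu
    refine (hb u (hsub hu)).2.trans ?_
    gcongr
    simpa using hu
  have := (convex_closedBall (0 : F) ‖y‖).norm_image_sub_le_of_norm_hasFDerivWithin_le hd hbd
    (x := 0) (y := y) (by simp) (by simp)
  simpa [sq, mul_assoc] using this

/-- `f y = a + L y + Q y + o(|y|^2)` with `L = O(|y|)`, `Q = O(|y|^2)`. -/
structure Jet (f : F → G) (a : G) (L Q : F → G) : Prop where
  hL : L =O[𝓝 0] fun y => ‖y‖
  hQ : Q =O[𝓝 0] fun y => ‖y‖ ^ 2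
  hR : (fun y => f y - a - L y - Q y) =o[𝓝 0] fun y => ‖y‖ ^ 2

omit [NormedSpace ℝ F] in
theorem sq_o : (fun y : F => ‖y‖ ^ 2) =o[𝓝 0] fun y => ‖y‖ := by
  simpa using (isLittleO_norm_pow_id (E' := F) (n := 2) (by norm_num)).norm_right

omit [NormedSpace ℝ F] in
theorem norm_o : (fun y : F => ‖y‖) =o[𝓝 0] fun _ => (1 : ℝ) := by
  rw [isLittleO_one_iff]
  simpa using (continuous_norm (E := F)).tendsto 0

namespace Jet

variable {f L Q f₁ L₁ Q₁ : F → G} {a a₁ : G}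

omit [NormedSpace ℝ F] [NormedSpace ℝ G] in
theorem const (a : G) : Jet (fun _ : F => a) a (fun _ => 0) fun _ => 0 :=
  ⟨isBigO_zero _ _, isBigO_zero _ _, by simp⟩

theorem clm (T : F →L[ℝ] G) : Jet T 0 T fun _ => 0 :=
  ⟨(T.isBigO_id _).norm_right, isBigO_zero _ _, by simp⟩

omit [NormedSpace ℝ F] [NormedSpace ℝ G] in
theorem congr (h : Jet f a L Q) (hf : f =ᶠ[𝓝 0] f₁) (ha : a = a₁) (hL : ∀ y, L y = L₁ y)
    (hQ : ∀ y, Q y = Q₁ y) : Jet f₁ a₁ L₁ Q₁ := by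
  obtain rfl : L = L₁ := funext hL
  obtain rfl : Q = Q₁ := funext hQ
  subst ha
  exact ⟨h.1, h.2, h.3.congr' (hf.mono fun y hy => by simp [hy]) EventuallyEq.rfl⟩

omit [NormedSpace ℝ F] [NormedSpace ℝ G] in
theorem add (h : Jet f a L Q) (h₁ : Jet f₁ a₁ L₁ Q₁) :
    Jet (fun y => f y + f₁ y) (a + a₁) (fun y => L y + L₁ y) fun y => Q y + Q₁ y :=
  ⟨h.1.add h₁.1, h.2.add h₁.2, (h.3.add h₁.3).congr_left fun y => by abel⟩

omit [NormedSpace ℝ F] [NormedSpace ℝ G] in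
theorem neg (h : Jet f a L Q) : Jet (fun y => -f y) (-a) (fun y => -L y) fun y => -Q y :=
  ⟨h.1.neg_left, h.2.neg_left, h.3.neg_left.congr_left fun y => by abel⟩

omit [NormedSpace ℝ F] [NormedSpace ℝ G] in
theorem sub (h : Jet f a L Q) (h₁ : Jet f₁ a₁ L₁ Q₁) :
    Jet (fun y => f y - f₁ y) (a - a₁) (fun y => L y - L₁ y) fun y => Q y - Q₁ y :=
  ⟨h.1.sub h₁.1, h.2.sub h₁.2, (h.3.sub h₁.3).congr_left fun y => by abel⟩

omit [NormedSpace ℝ F] [NormedSpace ℝ G] in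
theorem o1 (h : Jet f a L Q) : (fun y => f y - a - L y) =O[𝓝 0] fun y => ‖y‖ ^ 2 :=
  (h.3.isBigO.add h.2).congr_left fun y => by abel

omit [NormedSpace ℝ F] [NormedSpace ℝ G] in
theorem o0 (h : Jet f a L Q) : (fun y => f y - a) =O[𝓝 0] fun y => ‖y‖ :=
  ((h.o1.trans sq_o.isBigO).add h.1).congr_left fun y => by abel

omit [NormedSpace ℝ F] [NormedSpace ℝ G] in
theorem tendsto (h : Jet f a L Q) : Tendsto f (𝓝 0) (𝓝 a) := by
  have := h.o0.trans_isLittleO norm_o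
  rw [isLittleO_one_iff] at this
  simpa using this.add_const a

omit [NormedSpace ℝ F] in
theorem map (T : G →L[ℝ] G') (h : Jet f a L Q) :
    Jet (fun y => T (f y)) (T a) (fun y => T (L y)) fun y => T (Q y) :=
  ⟨(T.isBigO_comp _ _).trans h.1, (T.isBigO_comp _ _).trans h.2,
    ((T.isBigO_comp _ _).trans_isLittleO h.3).congr_left fun y => by simp⟩

omit [NormedSpace ℝ F] in
theorem bil_O (B : G →L[ℝ] G' →L[ℝ] G'') {u : F → G} {v : F → G'} {p q : F → ℝ}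
    (hu : u =O[𝓝 0] p) (hv : v =O[𝓝 0] q) :
    (fun y => B (u y) (v y)) =O[𝓝 0] fun y => p y * q y :=
  (B.isBoundedBilinearMap.isBigO_comp (g := u) (h := v)).trans (hu.norm_left.mul hv.norm_left)

omit [NormedSpace ℝ F] in
theorem cube_o : (fun y : F => ‖y‖ ^ 2 * ‖y‖) =o[𝓝 0] fun y => ‖y‖ ^ 2 := by
  simpa using (isBigO_refl (fun y : F => ‖y‖ ^ 2) (𝓝 0)).mul_isLittleO norm_o

omit [NormedSpace ℝ F] in
theorem bil (B : G →L[ℝ] G' →L[ℝ] G'') {g M R : F → G'} {b : G'} (h : Jet f a L Q)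
    (h' : Jet g b M R) :
    Jet (fun y => B (f y) (g y)) (B a b) (fun y => B a (M y) + B (L y) b)
      fun y => B a (R y) + B (Q y) b + B (L y) (M y) := by
  refine ⟨(h'.map (B a)).1.add (h.map (B.flip b)).1,
    ((h'.map (B a)).2.add (h.map (B.flip b)).2).add ?_, ?_⟩
  · simpa [sq] using bil_O B h.1 h'.1
  · have e1 := (bil_O B h.o1 h'.o0).trans_isLittleO cube_o
    have e2 := (bil_O B h.1 h'.o1).trans_isLittleO (by simpa [mul_comm] using cube_o (F := F))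
    refine ((((h'.map (B a)).3.add (h.map (B.flip b)).3).add e1).add e2).congr_left fun y => ?_
    simp only [map_sub, ContinuousLinearMap.flip_apply, sub_apply]
    abel

omit [NormedSpace ℝ F] in
/-- composition with a twice differentiable map -/
theorem comp {g : G → G'} {g' : G → G →L[ℝ] G'} {B : G →L[ℝ] G →L[ℝ] G'} (h : Jet f a L Q)
    (h1 : ∀ᶠ u in 𝓝 a, HasFDerivAt g (g' u) u) (h2 : HasFDerivAt g' B a) :
    Jet (fun y => g (f y)) (g a) (fun y => g' a (L y))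
      fun y => g' a (Q y) + (1 / 2 : ℝ) • B (L y) (L y) := by
  refine ⟨(h.map (g' a)).1, (h.map (g' a)).2.add ?_, ?_⟩
  · exact ((bil_O B h.1 h.1).const_smul_left (1 / 2 : ℝ)).congr_right fun y => (sq _).symm
  · have ht : Tendsto (fun y => f y - a) (𝓝 0) (𝓝 0) := by simpa using h.tendsto.sub_const a
    have e0 := ((taylor2 h1 h2).comp_tendsto ht).trans_isBigO (h.o0.norm_left.pow 2)
    have e1 := ((bil_O B h.o1 h.o0).trans_isLittleO cube_o).const_smul_left (1 / 2 : ℝ)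
    have e2 := ((bil_O B h.1 h.o1).trans_isLittleO
      (by simpa [mul_comm] using cube_o (F := F))).const_smul_left (1 / 2 : ℝ)
    refine (((e0.add e1).add e2).add (h.map (g' a)).3).congr_left fun y => ?_
    simp only [map_sub, Function.comp, sub_apply, add_sub_cancel, smul_sub,
      Pi.smul_apply]
    abel

section Alg

variable {K : Type*} [RCLike K] {f L Q g M R : F → K} {a b : K}

omit [NormedSpace ℝ F] in
theorem mul (h : Jet f a L Q) (h' : Jet g b M R) :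
    Jet (fun y => f y * g y) (a * b) (fun y => a * M y + L y * b)
      fun y => a * R y + Q y * b + L y * M y :=
  h.bil (ContinuousLinearMap.mul ℝ K) h'

omit [NormedSpace ℝ F] in
theorem const_mul (c : K) (h : Jet f a L Q) :
    Jet (fun y => c * f y) (c * a) (fun y => c * L y) fun y => c * Q y :=
  h.map (ContinuousLinearMap.mul ℝ K c)

omit [NormedSpace ℝ F] in
/-- composition with a scalar function of one (real or complex) variable -/
theorem comp1 {φ φ' : K → K} {d : K} (h : Jet f a L Q)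
    (h1 : ∀ᶠ u in 𝓝 a, HasDerivAt φ (φ' u) u) (h2 : HasDerivAt φ' d a) :
    Jet (fun y => φ (f y)) (φ a) (fun y => φ' a * L y) fun y => φ' a * Q y + d / 2 * L y ^ 2 := by
  have e1 : ∀ᶠ u in 𝓝 a, HasFDerivAt φ (ContinuousLinearMap.mul ℝ K (φ' u)) u :=
    h1.mono fun u hu => (hu.hasFDerivAt.restrictScalars ℝ).congr_fderiv (by
      ext v; simp [mul_comm])
  have e2 := (ContinuousLinearMap.mul ℝ K).hasFDerivAt.comp a (h2.hasFDerivAt.restrictScalars ℝ)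
  refine (h.comp e1 e2).congr EventuallyEq.rfl rfl (fun y => rfl) fun y => ?_
  have : (algebraMap ℝ K) 2 = 2 := map_ofNat _ 2
  simp [RCLike.real_smul_eq_coe_mul, this]
  ring

end Alg

end Jet

end Pool.Agent.MP_7ebdba_gt.sm

end MrgPart0

-- ======== part 1: formerly Pool.Agent.MP_7ebdba_gt.sm.m.Kit
section MrgPart1

/-! Model independent tools for the Morse certificates. -/

open scoped ContDiff Topology
open Set Filter Asymptotics

namespace Pool.Agent.MP_7ebdba_gt.sm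

theorem Sm.diff {k : E 5 → ℝ} (h : Sm k) (x : S4) : DifferentiableAt ℝ k x :=
  (h x).differentiableAt (by simp)

theorem Sm.cont {k : E 5 → ℝ} (h : Sm k) : Continuous fun x : S4 => k x :=
  continuous_iff_continuousAt.2 fun x =>
    (h x).continuousAt.comp (f := Subtype.val) continuous_subtype_val.continuousAt

/-- derivative of a function along a curve -/
theorem curve_deriv {k : E 5 → ℝ} {x v : E 5} {γ : ℝ → E 5} {d : ℝ} (hk : DifferentiableAt ℝ k x)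
    (h0 : γ 0 = x) (hγ : HasDerivAt γ v 0) (hd : HasDerivAt (fun t => k (γ t)) d 0) :
    fderiv ℝ k x v = d := by
  subst h0
  exact (hk.hasFDerivAt.comp_hasDerivAt (0 : ℝ) hγ).unique hd

/-- the velocity of a curve in the submanifold is tangent -/
theorem curve_tangent {es : List (E 5 → ℝ)} {x : S4} {v : E 5} {γ : ℝ → E 5}
    (hes : ∀ e ∈ es, Sm e) (h0 : γ 0 = x) (hγ : HasDerivAt γ v 0)
    (h : ∀ᶠ t in 𝓝 (0 : ℝ), ‖γ t‖ = 1 ∧ ∀ e ∈ es, e (γ t) = 0) : Tangent es x v := by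
  constructor
  · have e1 := hγ.norm_sq
    have e2 : HasDerivAt (fun t => ‖γ t‖ ^ 2) 0 0 :=
      (hasDerivAt_const (0 : ℝ) (1 : ℝ)).congr_of_eventuallyEq (h.mono fun t ht => by simp [ht.1])
    have := e1.unique e2
    rw [h0] at this
    linarith
  · intro e he
    exact curve_deriv ((hes e he).diff x) h0 hγ
      ((hasDerivAt_const (0 : ℝ) (0 : ℝ)).congr_of_eventuallyEq (h.mono fun t ht => ht.2 e he))

/-- a curve in a regular level set with prescribed velocity -/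
theorem level_curve {G : Type*} [NormedAddCommGroup G] [NormedSpace ℝ G] [FiniteDimensional ℝ G]
    {f : E 5 → G} {f' : E 5 →L[ℝ] G} {x v : E 5} (hf : HasStrictFDerivAt f f' x)
    (hs : Function.Surjective f') (hv : f' v = 0) :
    ∃ γ : ℝ → E 5, γ 0 = x ∧ HasDerivAt γ v 0 ∧ ∀ᶠ t in 𝓝 (0 : ℝ), ContinuousAt γ t ∧ f (γ t) = f x := by
  have hr : f'.range = ⊤ := LinearMap.range_eq_top.2 hs
  let u : f'.ker := ⟨v, hv⟩
  have hl : HasStrictDerivAt (fun t : ℝ => t • u) u 0 := by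
    simpa using (hasStrictDerivAt_id (0 : ℝ)).smul_const u
  have h1 : HasStrictDerivAt (fun t : ℝ => hf.implicitFunction f f' hr (f x) (t • u)) v 0 := by
    have := hf.to_implicitFunction hr
    rw [← zero_smul ℝ u] at this
    exact this.comp_hasStrictDerivAt (0 : ℝ) hl
  refine ⟨_, by simp, h1.hasDerivAt, ?_⟩
  obtain ⟨K, s, hs, hK⟩ := h1.hasStrictFDerivAt.exists_lipschitzOnWith
  have ht : Tendsto (fun t : ℝ => (f x, t • u)) (𝓝 0) (𝓝 (f x, 0)) := by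
    have : Continuous fun t : ℝ => (f x, t • u) := by fun_prop
    simpa using this.tendsto 0
  filter_upwards [eventually_mem_nhds_iff.2 hs, ht.eventually (hf.map_implicitFunction_eq hr)]
    with t h2 h3 using ⟨hK.continuousOn.continuousAt h2, h3⟩

/-- every tangent vector is the velocity of a curve in the submanifold -/
def Curves (es : List (E 5 → ℝ)) (x : S4) : Prop :=
  ∀ v, Tangent es x v → ∃ γ : ℝ → E 5, γ 0 = x ∧ HasDerivAt γ v 0 ∧
    ∀ᶠ t in 𝓝 (0 : ℝ), ContinuousAt γ t ∧ ‖γ t‖ = 1 ∧ ∀ e ∈ es, e (γ t) = 0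

theorem sq_one {y : E 5} {x : S4} (h : ‖y‖ ^ 2 = ‖(x : E 5)‖ ^ 2) : ‖y‖ = 1 := by
  rw [norm_coe] at h
  exact (pow_left_inj₀ (norm_nonneg _) zero_le_one two_ne_zero).1 h

theorem curves_nil (x : S4) : Curves [] x := by
  intro v hv
  obtain ⟨γ, h0, h1, h2⟩ := level_curve (hasStrictFDerivAt_norm_sq (x : E 5)) (v := v)
    (fun r => ⟨(r / 2) • (x : E 5), by simp⟩) (by simp [hv.1])
  exact ⟨γ, h0, h1, h2.mono fun t ht => ⟨ht.1, sq_one ht.2, by simp⟩⟩

theorem curves_one {e : E 5 → ℝ} {x : S4} (he : Sm e) (hx : e x = 0)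
    (hs : ∃ v, Tangent [] x v ∧ fderiv ℝ e x v ≠ 0) : Curves [e] x := by
  intro v hv
  obtain ⟨u, hu, hu'⟩ := hs
  obtain ⟨γ, h0, h1, h2⟩ := level_curve ((hasStrictFDerivAt_norm_sq (x : E 5)).prodMk
    ((he x).hasStrictFDerivAt (by simp))) (v := v)
    (fun r => ⟨(r.1 / 2) • (x : E 5) +
      ((r.2 - r.1 / 2 * fderiv ℝ e x x) / fderiv ℝ e x u) • u, by
        ext
        · simp [inner_add_right, inner_smul_right, hu.1]; ring
        · simp; field_simp; ring⟩) (by simp [hv.1, hv.2 e])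
  refine ⟨γ, h0, h1, h2.mono fun t ht => ⟨ht.1, sq_one (congrArg Prod.fst ht.2), ?_⟩⟩
  simpa [hx] using congrArg Prod.snd ht.2

theorem isClosed_piece {es cs : List (E 5 → ℝ)} (hes : ∀ e ∈ es, Sm e) (hcs : ∀ c ∈ cs, Sm c) :
    IsClosed (Piece es cs) := by
  have : Piece es cs = (⋂ e ∈ es, {x : S4 | e x = 0}) ∩ ⋂ c ∈ cs, {x : S4 | c x ≤ 0} := by
    ext x; simp [Piece]
  rw [this]
  exact (isClosed_biInter fun e he => isClosed_eq (hes e he).cont continuous_const).inter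
    (isClosed_biInter fun c hc => isClosed_le (hcs c hc).cont continuous_const)

/-- a germ of a curve in a set stays in the component -/
theorem germ_comp {P : Set S4} {x : S4} {γ : ℝ → E 5} {p : E 5 → Prop} (hx : x ∈ P) (h0 : γ 0 = x)
    (hc : ∀ᶠ t in 𝓝 (0 : ℝ), ContinuousAt γ t)
    (h : ∀ᶠ t in 𝓝[>] (0 : ℝ), γ t ∈ Subtype.val '' P ∧ p (γ t)) :
    ∃ y ∈ connectedComponentIn P x, p y := by
  obtain ⟨δ, hδ, hb⟩ := Metric.eventually_nhds_iff_ball.1
    (hc.and (eventually_nhdsWithin_iff.1 h))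
  have hm : ∀ t ∈ Icc (0 : ℝ) (δ / 2), t ∈ Metric.ball (0 : ℝ) δ := fun t ht => by
    rw [mem_ball_zero_iff, Real.norm_eq_abs, abs_of_nonneg ht.1]; linarith [ht.2]
  have hP : ∀ t ∈ Icc (0 : ℝ) (δ / 2), γ t ∈ Subtype.val '' P := fun t ht => by
    rcases ht.1.eq_or_lt with rfl | h'
    · exact ⟨x, hx, h0.symm⟩
    · exact ((hb t (hm t ht)).2 h').1
  have hpc : IsPreconnected (γ '' Icc 0 (δ / 2)) :=
    isPreconnected_Icc.image _ fun t ht => (hb t (hm t ht)).1.continuousWithinAt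
  have hsub : γ '' Icc 0 (δ / 2) ⊆ Subtype.val '' P := by rintro _ ⟨t, ht, rfl⟩; exact hP t ht
  have hpc' : IsPreconnected ((Subtype.val : S4 → E 5) ⁻¹' (γ '' Icc 0 (δ / 2))) :=
    hpc.preimage_of_isClosedMap Subtype.val_injective
      Metric.isClosed_sphere.isClosedMap_subtype_val (hsub.trans (image_subset_range _ _))
  have hd : δ / 2 ∈ Icc (0 : ℝ) (δ / 2) := ⟨by linarith, le_rfl⟩
  obtain ⟨y, -, hy⟩ := hP _ hd
  refine ⟨y, hpc'.subset_connectedComponentIn ⟨0, ⟨le_rfl, hd.1⟩, h0⟩ ?_ ⟨_, hd, hy.symm⟩, ?_⟩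
  · intro z hz
    obtain ⟨z', h1, h2⟩ := hsub hz
    rwa [← Subtype.val_injective h2]
  · rw [hy]
    exact ((hb _ (hm _ hd)).2 (half_pos hδ)).2

theorem lt_of_deriv_neg {g : ℝ → ℝ} {d : ℝ} (h : HasDerivAt g d 0) (hd : d < 0) :
    ∀ᶠ t in 𝓝[>] (0 : ℝ), g t < g 0 := by
  have := (hasDerivAt_iff_tendsto_slope_zero.1 h).mono_left (nhdsGT_le_nhdsNE 0)
  filter_upwards [this.eventually (gt_mem_nhds hd), self_mem_nhdsWithin] with t h1 h2
  have h2 : 0 < t := h2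
  simp only [zero_add, smul_eq_mul] at h1
  nlinarith [inv_pos.2 h2]

theorem list_ev {α β : Type*} {l : Filter β} {cs : List α} {p : α → β → Prop}
    (h : ∀ c ∈ cs, ∀ᶠ t in l, p c t) : ∀ᶠ t in l, ∀ c ∈ cs, p c t :=
  (Filter.eventually_all_finite cs.finite_toSet).2 h

theorem sm_curve {c : E 5 → ℝ} {x : S4} {γ : ℝ → E 5} (hc : Sm c) (h0 : γ 0 = x)
    (hγ : ContinuousAt γ 0) (h : c x < 0) : ∀ᶠ t in 𝓝[>] (0 : ℝ), c (γ t) ≤ 0 := by
  have e : ContinuousAt (fun t => c (γ t)) 0 :=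
    ContinuousAt.comp (g := c) (by rw [h0]; exact (hc x).continuousAt) hγ
  have := e.eventually (gt_mem_nhds (a := (0 : ℝ)) (by simpa [h0] using h))
  exact (this.filter_mono nhdsWithin_le_nhds).mono fun t ht => ht.le

/-- ascent from a regular interior point -/
theorem ascend_reg {es cs : List (E 5 → ℝ)} {k : E 5 → ℝ} {x : S4} {v : E 5}
    (hcs : ∀ c ∈ cs, Sm c) (hk : Sm k) (hx : x ∈ Piece es cs) (hc : Curves es x)
    (hv : Tangent es x v) (h1 : 0 < fderiv ℝ k x v) (h2 : ∀ c ∈ cs, c x < 0) :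
    ∃ y ∈ connectedComponentIn (Piece es cs) x, k x < k y := by
  obtain ⟨γ, h0, hγ, h⟩ := hc v hv
  have hd : HasDerivAt (fun t => -k (γ t)) (-fderiv ℝ k x v) 0 := by
    have := (hk.diff x).hasFDerivAt
    rw [← h0] at this ⊢
    exact (this.comp_hasDerivAt (0 : ℝ) hγ).neg
  refine germ_comp (p := fun y => k x < k y) hx h0 (h.mono fun t ht => ht.1) ?_
  filter_upwards [list_ev fun c hc => sm_curve (hcs c hc) h0 hγ.continuousAt (h2 c hc),
    lt_of_deriv_neg hd (by linarith), h.filter_mono nhdsWithin_le_nhds] with t a1 a2 a3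
  exact ⟨⟨⟨γ t, by simpa using a3.2.1⟩, ⟨a3.2.2, a1⟩, rfl⟩, by rw [h0] at a2; linarith⟩

/-- ascent from a critical point that is not a maximum -/
theorem ascend_crit {es cs : List (E 5 → ℝ)} {k : E 5 → ℝ} {x : S4} {n i : ℕ} (hi : i < n)
    (hcs : ∀ c ∈ cs, Sm c) (hx : x ∈ Piece es cs) (h2 : ∀ c ∈ cs, c x < 0) (hc : Crit n es k i x) :
    ∃ y ∈ connectedComponentIn (Piece es cs) x, k x < k y := by
  obtain ⟨φ, c, hφ, h0, -, h, hc0, hc1, ho⟩ := hc
  obtain ⟨j, hj⟩ : ∃ j, 0 < c j := by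
    by_contra hn
    have : {j | c j < 0} = univ := eq_univ_of_forall fun j =>
      lt_of_le_of_ne (not_lt.1 fun a => hn ⟨j, a⟩) (hc0 j)
    rw [this, ncard_univ, Nat.card_eq_fintype_card, Fintype.card_fin] at hc1
    omega
  let l : ℝ → E n := fun t => EuclideanSpace.single j t
  have hl : Continuous l := by
    have : l = fun t : ℝ => t • EuclideanSpace.single j (1 : ℝ) := by
      ext t a; by_cases e : a = j <;> simp [l, e]
    rw [this]; fun_prop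
  have l0 : l 0 = 0 := by simp [l]
  have ht : Tendsto l (𝓝 0) (𝓝 0) := l0 ▸ hl.tendsto 0
  have hφ1 : ∀ᶠ y in 𝓝 (0 : E n), ContinuousAt φ y :=
    ((hφ.of_le (m := 1) (by simp)).eventually (by simp)).mono fun y hy => hy.continuousAt
  have hγ : ∀ᶠ t in 𝓝 (0 : ℝ), ContinuousAt (fun t => φ (l t)) t :=
    (ht.eventually hφ1).mono fun t a => ContinuousAt.comp (g := φ) a hl.continuousAt
  have g0 : φ (l 0) = x := by rw [l0, h0]
  refine germ_comp (γ := fun t => φ (l t)) (p := fun y => k x < k y) hx g0 hγ ?_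
  filter_upwards [list_ev fun c hc => sm_curve (γ := fun t => φ (l t)) (hcs c hc) g0
      hγ.self_of_nhds (h2 c hc), (ht.eventually h).filter_mono nhdsWithin_le_nhds,
    (ht.eventually (isLittleO_iff.1 ho (half_pos hj))).filter_mono nhdsWithin_le_nhds,
    self_mem_nhdsWithin] with t a1 a3 a2 a4
  refine ⟨⟨⟨φ (l t), by simpa using a3.1⟩, ⟨a3.2, a1⟩, rfl⟩, ?_⟩
  have a4 : 0 < t := a4
  have e1 : ∑ a, c a * l t a ^ 2 = c j * t ^ 2 := by
    rw [Finset.sum_eq_single j] <;> simp +contextual [l]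
  have e2 : ‖‖l t‖ ^ 2‖ = t ^ 2 := by simp [l]
  rw [e1, e2, Real.norm_eq_abs, abs_le] at a2
  nlinarith [mul_pos hj (pow_pos a4 2)]

/-- every point of a piece with Morse data is joined to the boundary -/
theorem ascend {es cs : List (E 5 → ℝ)} {k : E 5 → ℝ} {n g : ℕ} {C0 C1 : Finset S4} (hn : 1 < n)
    (hes : ∀ e ∈ es, Sm e) (hcs : ∀ c ∈ cs, Sm c) (hc : ∀ x ∈ Piece es cs, Curves es x)
    (hm : Morse n es cs g k C0 C1) {x : S4} (hx : x ∈ Piece es cs) :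
    ∃ y ∈ connectedComponentIn (Piece es cs) x, ∃ c ∈ cs, c y = 0 := by
  obtain ⟨m1, -, m3, m4, m5⟩ := hm
  have hcl : IsCompact (connectedComponentIn (Piece es cs) x) := by
    rw [connectedComponentIn_eq_image hx]
    exact ((isClosed_piece hes hcs).isClosedMap_subtype_val _ isClosed_connectedComponent).isCompact
  obtain ⟨y, hy, hmax⟩ := hcl.exists_isMaxOn ⟨x, mem_connectedComponentIn hx⟩
    (m1.cont.continuousOn)
  refine ⟨y, hy, ?_⟩
  by_contra hn'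
  have hyP := connectedComponentIn_subset _ _ hy
  have hlt : ∀ c ∈ cs, c y < 0 := fun c hc =>
    lt_of_le_of_ne (hyP.2 c hc) fun a => hn' ⟨c, hc, a⟩
  obtain ⟨z, hz, hz'⟩ : ∃ z ∈ connectedComponentIn (Piece es cs) y, k y < k z := by
    by_cases a0 : y ∈ C0
    · exact ascend_crit (by omega) hcs hyP hlt (m3 y a0).2.2
    by_cases a1 : y ∈ C1
    · exact ascend_crit hn hcs hyP hlt (m4 y a1).2.2
    obtain ⟨v, b1, b2, -⟩ := m5 y hyP a0 a1
    exact ascend_reg hcs m1 hyP (hc y hyP) b1 b2 hlt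
  rw [← connectedComponentIn_eq hy] at hz
  exact absurd (hmax hz) (not_le.2 hz')

/-- a piece with Morse data and connected boundary is connected -/
theorem conn_of_bd {es cs : List (E 5 → ℝ)} {k : E 5 → ℝ} {n g : ℕ} {C0 C1 : Finset S4}
    (hn : 1 < n) (hes : ∀ e ∈ es, Sm e) (hcs : ∀ c ∈ cs, Sm c)
    (hc : ∀ x ∈ Piece es cs, Curves es x) (hm : Morse n es cs g k C0 C1) {D : Set S4}
    (hD : IsConnected D) (h1 : D ⊆ Piece es cs) (h2 : ∀ x ∈ Piece es cs, ∀ c ∈ cs, c x = 0 → x ∈ D) :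
    IsConnected (Piece es cs) := by
  obtain ⟨x₀, hx₀⟩ := hD.nonempty
  refine ⟨⟨x₀, h1 hx₀⟩, isPreconnected_of_forall x₀ fun x hx => ?_⟩
  obtain ⟨y, hy, c, a, b⟩ := ascend hn hes hcs hc hm hx
  exact ⟨connectedComponentIn (Piece es cs) x ∪ D,
    union_subset (connectedComponentIn_subset _ _) h1, Or.inr hx₀,
    Or.inl (mem_connectedComponentIn hx), IsPreconnected.union y hy
      (h2 y (connectedComponentIn_subset _ _ hy) c a b) isPreconnected_connectedComponentIn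
      hD.isPreconnected⟩

/-- a critical point from the two-jet of the function in a chart -/
theorem crit_of_jet {n i : ℕ} {es : List (E 5 → ℝ)} {k : E 5 → ℝ} {x : S4} {φ : E n → E 5}
    {c : Fin n → ℝ} {a : ℝ} {L Q : E n → ℝ} (h1 : ContDiffAt ℝ ∞ φ 0) (h0 : φ 0 = x)
    (h2 : Function.Injective (fderiv ℝ φ 0))
    (h3 : ∀ᶠ y in 𝓝 0, ‖φ y‖ = 1 ∧ ∀ e ∈ es, e (φ y) = 0) (h4 : ∀ j, c j ≠ 0)
    (h5 : {j | c j < 0}.ncard = i) (hj : Jet (fun y => k (φ y)) a L Q) (ha : a = k x)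
    (hL : ∀ y, L y = 0) (hQ : ∀ y, Q y = ∑ j, c j * y j ^ 2) : Crit n es k i x :=
  ⟨φ, c, h1, h0, h2, h3, h4, h5, hj.3.congr_left fun y => by rw [ha, hL, hQ, sub_zero]⟩

end Pool.Agent.MP_7ebdba_gt.sm

end MrgPart1

-- ======== part 2: formerly Pool.Agent.MP_7ebdba_gt.sm.m.Jet2
section MrgPart2

/-! Second order jets at a critical point. -/

open scoped ContDiff Topology
open Set Filter Asymptotics

namespace Pool.Agent.MP_7ebdba_gt.sm.m

variable {n : ℕ}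

/-- the diagonal quadratic form -/
def qf (c : Fin n → ℝ) (y : E n) : ℝ := ∑ j, c j * y j ^ 2

/-- `f = a + ∑ c j * y j ^ 2` up to second order at the origin -/
def Jet (f : E n → ℝ) (a : ℝ) (c : Fin n → ℝ) : Prop :=
  (fun y => f y - a - qf c y) =o[𝓝 0] fun y : E n => ‖y‖ ^ 2

theorem qf_bigO (c : Fin n → ℝ) : qf c =O[𝓝 0] fun y : E n => ‖y‖ ^ 2 := by
  have h : ∀ j, (fun y : E n => y j) =O[𝓝 0] fun y : E n => ‖y‖ := fun j =>
    IsBigO.of_bound' (Eventually.of_forall fun y => by simpa using PiLp.norm_apply_le y j)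
  exact (IsBigO.sum (s := Finset.univ) (A := fun j (y : E n) => c j * y j ^ 2) fun j _ =>
    ((h j).pow 2).const_mul_left (c j)).congr_left fun y => by simp [qf]

theorem nsq_small : (fun y : E n => ‖y‖ ^ 2) =o[𝓝 0] fun _ => (1 : ℝ) := by
  rw [isLittleO_one_iff]
  exact (continuous_norm.pow 2).tendsto' (0 : E n) 0 (by simp)

namespace Jet

variable {f g : E n → ℝ} {a b : ℝ} {c d : Fin n → ℝ}

theorem bigO (h : Jet f a c) : (fun y => f y - a) =O[𝓝 0] fun y : E n => ‖y‖ ^ 2 :=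
  (h.isBigO.add (qf_bigO c)).congr_left fun y => by ring

theorem tendsto (h : Jet f a c) : Tendsto f (𝓝 0) (𝓝 a) :=
  tendsto_sub_nhds_zero_iff.1 ((isLittleO_one_iff ℝ).1 (h.bigO.trans_isLittleO nsq_small))

theorem congr (h : Jet f a c) (e : g =ᶠ[𝓝 0] f) : Jet g a c :=
  IsLittleO.congr' h (by filter_upwards [e] with y hy using by rw [hy]) EventuallyEq.rfl

theorem cast (h : Jet f a c) (e1 : a = b) (e2 : ∀ j, c j = d j) : Jet f b d := by
  rw [← e1, ← funext e2]; exact h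

theorem const (a : ℝ) : Jet (fun _ : E n => a) a 0 := by
  simp [Jet, qf]

theorem sq (j : Fin n) : Jet (fun y : E n => y j ^ 2) 0 (Pi.single j 1) := by
  simp [Jet, qf, Pi.single_apply]

theorem add (h : Jet f a c) (k : Jet g b d) : Jet (fun y => f y + g y) (a + b) (c + d) :=
  (IsLittleO.add h k).congr_left fun y => by
    simp only [qf, Pi.add_apply, add_mul, Finset.sum_add_distrib]; ring

theorem comp (h : Jet f a c) {ψ : ℝ → ℝ} {e : ℝ} (k : HasDerivAt ψ e a) :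
    Jet (fun y => ψ (f y)) (ψ a) (e • c) := by
  have h1 := ((hasDerivAt_iff_isLittleO.1 k).comp_tendsto h.tendsto).trans_isBigO h.bigO
  refine (h1.add (IsLittleO.const_mul_left h e)).congr_left fun y => ?_
  simp only [qf, Pi.smul_apply, smul_eq_mul, mul_assoc, ← Finset.mul_sum, Function.comp]
  ring

theorem smul (e : ℝ) (h : Jet f a c) : Jet (fun y => e * f y) (e * a) (e • c) :=
  h.comp (ψ := fun x => e * x) (by simpa using (hasDerivAt_id a).const_mul e)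

theorem neg (h : Jet f a c) : Jet (fun y => -f y) (-a) (-c) := by
  simpa using h.smul (-1)

theorem sub (h : Jet f a c) (k : Jet g b d) : Jet (fun y => f y - g y) (a - b) (c - d) := by
  simpa only [sub_eq_add_neg] using h.add k.neg

theorem mul (h : Jet f a c) (k : Jet g b d) :
    Jet (fun y => f y * g y) (a * b) (b • c + a • d) := by
  have h1 : (fun y => (f y - a) * (g y - b)) =o[𝓝 0] fun y : E n => ‖y‖ ^ 2 := by
    simpa using h.bigO.mul_isLittleO (k.bigO.trans_isLittleO nsq_small)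
  refine (h1.add ((h.smul b).add (k.smul a))).congr_left fun y => ?_
  ring

theorem cos (m : ℝ) (j : Fin n) :
    Jet (fun y : E n => Real.cos (m * y j)) 1 (Pi.single j (-(m ^ 2 / 2))) := by
  have hb : (fun y : E n => Real.cos (m * y j) - (1 - (m * y j) ^ 2 / 2)) =O[𝓝 0]
      fun y : E n => (m * y j) ^ 2 * (m * y j) ^ 2 := by
    have hc : Continuous fun y : E n => |m * y j| := by fun_prop
    refine IsBigO.of_bound' ?_
    filter_upwards [(hc.tendsto' 0 0 (by simp)).eventually (eventually_le_nhds one_pos)] with y hy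
    refine (Real.cos_bound hy).trans ?_
    rw [Real.norm_eq_abs, ← pow_add, abs_pow]
    nlinarith [pow_nonneg (abs_nonneg (m * y j)) 4]
  have h2 : (fun y : E n => (m * y j) ^ 2) =O[𝓝 0] fun y : E n => ‖y‖ ^ 2 :=
    (((sq j).smul (m ^ 2)).bigO).congr_left fun y => by ring
  have h3 := hb.trans_isLittleO (h2.mul_isLittleO (h2.trans_isLittleO nsq_small))
  refine h3.congr (fun y => ?_) fun y => mul_one _
  simp only [qf, Pi.single_apply, ite_mul, zero_mul, Finset.sum_ite_eq', Finset.mem_univ, if_true]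
  ring

end Jet

/-- The form of `Crit` with a parametrisation that is smooth near the origin. -/
def CritS (n : ℕ) (es : List (E 5 → ℝ)) (k : E 5 → ℝ) (i : ℕ) (x : S4) : Prop :=
  ∃ (φ : E n → E 5) (c : Fin n → ℝ), (∀ᶠ y in 𝓝 0, ContDiffAt ℝ ∞ φ y) ∧ φ 0 = x ∧
    Function.Injective (fderiv ℝ φ 0) ∧ (∀ᶠ y in 𝓝 0, ‖φ y‖ = 1 ∧ ∀ e ∈ es, e (φ y) = 0) ∧
    (∀ j, c j ≠ 0) ∧ {j | c j < 0}.ncard = i ∧ Jet (fun y => k (φ y)) (k x) c

theorem CritS.crit {es : List (E 5 → ℝ)} {k : E 5 → ℝ} {i : ℕ} {x : S4} (h : CritS n es k i x) :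
    Crit n es k i x := by
  obtain ⟨φ, c, h1, h2⟩ := h
  first | exact ⟨φ, c, h1.self_of_nhds, h2⟩ | exact ⟨φ, c, h1, h2⟩

/-- a test map shows that a differential is injective -/
theorem inj_of {F G H : Type*} [NormedAddCommGroup F] [NormedSpace ℝ F] [NormedAddCommGroup G]
    [NormedSpace ℝ G] [NormedAddCommGroup H] [NormedSpace ℝ H] {φ : F → G} {g : G → H} {y : F}
    {L : F →L[ℝ] H} (h1 : DifferentiableAt ℝ φ y) (h2 : DifferentiableAt ℝ g (φ y))
    (h3 : HasFDerivAt (fun y => g (φ y)) L y) (h4 : Function.Injective L) :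
    Function.Injective (fderiv ℝ φ y) := by
  have := (h2.hasFDerivAt.comp y h1.hasFDerivAt).unique h3
  rw [← this] at h4
  exact Function.Injective.of_comp h4

end Pool.Agent.MP_7ebdba_gt.sm.m

end MrgPart2

-- ======== part 3: formerly Pool.Agent.MP_7ebdba_gt.sm.m.Spec
section MrgPart3

/-! Block M: the rows of the proof of `ModelStmt`. -/

open scoped ContDiff Topology ComplexConjugate
open Set Complex Filter

noncomputable section

namespace Pool.Agent.MP_7ebdba_gt.sm.m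

/-- the profile of the Morse function on the wall `AA = 0` -/
def gam (P : Prof) (X : ℝ) : ℝ := √(6 - P.F X)
def BW (P : Prof) (x : E 5) : ℝ := P.η (sc x ^ 2) * bf (gam P) (zc x) (wc x)
def N3 (y : ℂ × ℂ × ℝ) : E 5 := nrm y.1 y.2.1 y.2.2

/-- row SM -/
structure Smo (P : Prof) : Prop where
  sH : Sm (HH P)
  sB : Sm (BB P)
  sW : Sm (BW P)
  iH : Inv (HH P)
  iB : Inv (BB P)
  far : ∀ x ∈ WW, AA P x ≤ -1
  mc : ∀ z w, z ≠ 0 ∨ w ≠ 0 → ContDiffAt ℝ ∞ (fun y : ℂ × ℂ => mf P y.1 y.2) (z, w)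
  m0 : ∀ z w, 0 ≤ mf P z w ∧ mf P z w ≤ 7
  F6 : ∀ X, P.F X < 6
  low : ∀ x : E 5, AA P x ≤ 0 → sc x ^ 2 < 8 / 9

/-- row WT: the weighted cone over the sphere -/
structure Wt (P : Prof) : Prop where
  one : ∀ z w t, z ≠ 0 ∨ w ≠ 0 → ‖nrm z w t‖ = 1
  cd : ∀ z w t, z ≠ 0 ∨ w ≠ 0 → ContDiffAt ℝ ∞ N3 (z, w, t)
  co : ∀ z w t, z ≠ 0 ∨ w ≠ 0 → ∃ r : ℝ, 0 < r ∧ zc (nrm z w t) = r ^ 2 * z ∧
    wc (nrm z w t) = r ^ 3 * w ∧ tt (nrm z w t) = t ∧ sc (nrm z w t) ^ 2 = t ^ 2 / (1 + t ^ 2)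
  sca : ∀ (r : ℝ) z w t, 0 < r → z ≠ 0 ∨ w ≠ 0 → nrm (r ^ 2 * z) (r ^ 3 * w) t = nrm z w t
  eta : ∀ x : S4, sc x ^ 2 < 1 → (zc x ≠ 0 ∨ wc x ≠ 0) ∧ nrm (zc x) (wc x) (tt x) = x
  val : ∀ z w t, z ≠ 0 ∨ w ≠ 0 → t ^ 2 ≤ 8 → HH P (nrm z w t) = mf P z w + t ^ 2 ∧
    BB P (nrm z w t) = bf P.β z w ∧ BW P (nrm z w t) = bf (gam P) z w
  mid : ∀ z w t, z ≠ 0 ∨ w ≠ 0 →
    HH P (nrm z w t) = P.η (t ^ 2 / (1 + t ^ 2)) * mf P z w + P.k (t ^ 2 / (1 + t ^ 2))
  fv : ∀ z w t, pf z w ≠ 0 → normSq z ^ 3 < 100 * normSq (pf z w) → t ^ 2 ≤ 8 →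
    HH P (nrm z w t) = P.F (xf z w) + t ^ 2 ∧ BB P (nrm z w t) = P.β (xf z w) * (ph (pf z w)).im ∧
      BW P (nrm z w t) = gam P (xf z w) * (ph (pf z w)).im
  nco : ∀ a c : ℂ, ‖a‖ = 1 → ‖c‖ < 1 / 8 → 1 - c * conj a ^ 6 ∈ slitPlane ∧
    af (a ^ 2) (a ^ 3 * Complex.sqrt (1 - c * conj a ^ 6)) = a ∧
    cf (a ^ 2) (a ^ 3 * Complex.sqrt (1 - c * conj a ^ 6)) = c ∧
    pf (a ^ 2) (a ^ 3 * Complex.sqrt (1 - c * conj a ^ 6)) = c
  nv : ∀ (a c : ℂ) t, ‖a‖ = 1 → ‖c‖ < 1 / 8 → t ^ 2 ≤ 8 →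
    HH P (ct a c t) = 6 - normSq c + P.ε * P.χ (normSq c) * a.re + t ^ 2 ∧
      BB P (ct a c t) = c.im ∧ BW P (ct a c t) = c.im
  cov : ∀ x : S4, sc x ^ 2 < 8 / 9 →
    (∃ a c t, ‖a‖ = 1 ∧ ‖c‖ < 1 / 8 ∧ t ^ 2 < 8 ∧ ct a c t = x) ∨
      ∃ z w t, pf z w ≠ 0 ∧ ¬ Near z w ∧ t ^ 2 < 8 ∧ nrm z w t = x ∧
        (z * w ≠ 0 ∨ z = 0 ∧ ‖w‖ = 1 ∨ w = 0 ∧ ‖z‖ = 1)
  push : ∀ (γ : ℝ → ℂ × ℂ × ℝ) (x : S4), DifferentiableAt ℝ γ 0 →
    (γ 0).1 ≠ 0 ∨ (γ 0).2.1 ≠ 0 → N3 (γ 0) = x → ∃ v, Tangent [] x v ∧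
      ∀ (f : E 5 → ℝ) (d : ℝ), Sm f → HasDerivAt (fun s => f (N3 (γ s))) d 0 → fderiv ℝ f x v = d
  crit : ∀ (n i : ℕ) (es : List (E 5 → ℝ)) (k : E 5 → ℝ) (x : S4) (ψ : E n → ℂ × ℂ × ℝ)
    (G : ℂ × ℂ × ℝ → ℂ × ℝ × ℝ) (L : E n →L[ℝ] ℂ × ℝ × ℝ) (c : Fin n → ℝ),
    ContDiffAt ℝ ∞ ψ 0 → (ψ 0).1 ≠ 0 ∨ (ψ 0).2.1 ≠ 0 → N3 (ψ 0) = x →
    DifferentiableAt ℝ G (ψ 0) → (∀ (r : ℝ) z w t, 0 < r → G (r ^ 2 * z, r ^ 3 * w, t) = G (z, w, t)) →
    HasFDerivAt (fun y => G (ψ y)) L 0 → Function.Injective L →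
    (∀ᶠ y in 𝓝 0, ∀ e ∈ es, e (N3 (ψ y)) = 0) → (∀ j, c j ≠ 0) → {j | c j < 0}.ncard = i →
    ((fun y => k (N3 (ψ y)) - k x - ∑ j, c j * y j ^ 2) =o[𝓝 0] fun y => ‖y‖ ^ 2) → Crit n es k i x

/-- a tangent vector with given derivatives of `HH`, `BB`, `BW` -/
def Dir (P : Prof) (x : S4) (h b g : ℝ) : Prop :=
  ∃ v, Tangent [] x v ∧ fderiv ℝ (HH P) x v = h ∧ fderiv ℝ (BB P) x v = b ∧
    fderiv ℝ (BW P) x v = g

/-- row DIR -/
structure Dirs (P : Prof) : Prop where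
  near : ∀ (x : S4) (a c : ℂ) (t : ℝ), ‖a‖ = 1 → ‖c‖ < 1 / 8 → t ^ 2 < 8 → ct a c t = x →
    ∀ (τ t' : ℝ) (u : ℂ), Dir P x
      ((P.ε * deriv P.χ (normSq c) * a.re - 1) * (2 * (c.re * u.re + c.im * u.im)) -
        P.ε * P.χ (normSq c) * a.im * τ + 2 * t * t') u.im u.im
  far : ∀ (x : S4) (z w : ℂ) (t : ℝ), pf z w ≠ 0 → ¬ Near z w → t ^ 2 < 8 → nrm z w t = x →
    ∀ τ ξ t' : ℝ, ξ = 0 ∨ z * w ≠ 0 → Dir P x (deriv P.F (xf z w) * ξ + 2 * t * t')
      (deriv P.β (xf z w) * ξ * (ph (pf z w)).im + P.β (xf z w) * τ * (ph (pf z w)).re)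
      (deriv (gam P) (xf z w) * ξ * (ph (pf z w)).im + gam P (xf z w) * τ * (ph (pf z w)).re)
  mid : ∀ x : S4, 0 < sc x ^ 2 → sc x ^ 2 < 1 → ∃ v, Tangent [] x v ∧ fderiv ℝ (HH P) x v < 0

/-- critical points over the axis `z = 0` -/
def PZ (n : ℕ) (c : ℂ) (T : ℝ) : Set S4 := {x | ∃ o t, o ^ n = c ∧ t ^ 2 = T ∧ nrm 0 o t = x}
/-- critical points over the axis `w = 0` -/
def PW (n : ℕ) (c : ℂ) (T : ℝ) : Set S4 := {x | ∃ ζ t, ζ ^ n = c ∧ t ^ 2 = T ∧ nrm ζ 0 t = x}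

/-- row CASES: good directions off the critical points -/
structure Cases (P : Prof) : Prop where
  o : ∀ x : S4, 0 ≤ AA P x → sc x ^ 2 ≠ 1 → ct 1 0 0 ≠ x →
    ∃ v, Tangent [] x v ∧ fderiv ℝ (HH P) x v < 0
  tr : ∀ x : S4, AA P x ≤ 0 → BB P x = 0 → ∃ b g, b ≠ 0 ∧ Dir P x 0 b g
  x : ∀ σ : ℝ, σ ^ 2 = 1 → ∀ x : S4, AA P x ≤ 0 → 0 ≤ σ * BB P x → x ∉ PZ 2 (-(σ * I)) 0 →
    x ∉ PW 3 (σ * I) 0 → ∃ h b g, Dir P x h b g ∧ 0 < h - σ * b ∧ (AA P x = 0 → 0 < h) ∧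
      (BB P x = 0 → σ * b < 0)
  h : ∀ x : S4, AA P x ≤ 0 → BB P x = 0 → x ∉ PZ 4 1 0 → x ∉ PW 6 1 0 → ct (-1) 0 0 ≠ x →
    ∃ h g, 0 < h ∧ Dir P x h 0 g
  w : ∀ σ : ℝ, σ ^ 2 = 1 → ∀ x : S4, AA P x = 0 → 0 ≤ σ * BB P x → x ∉ PZ 2 (-(σ * I)) 6 →
    x ∉ PW 3 (σ * I) 5 → ct 1 (σ * √P.ε * I) 0 ≠ x →
      ∃ b g, Dir P x 0 b g ∧ σ * g < 0 ∧ (BB P x = 0 → σ * b < 0)

/-- rows CZ, CW: critical points of index `i` of the three kinds of Morse functions -/
structure CritA (P : Prof) (i : ℕ) (SX : ℝ → Set S4) (SH : Set S4) (SW : ℝ → Set S4) : Prop where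
  x : ∀ σ : ℝ, σ ^ 2 = 1 → ∀ x ∈ SX σ, AA P x < 0 ∧ 0 < σ * BB P x ∧
    Crit 4 [] (fun y => HH P y - σ * BB P y) i x
  h : ∀ x ∈ SH, BB P x = 0 ∧ AA P x < 0 ∧ Crit 3 [BB P] (HH P) i x
  w : ∀ σ : ℝ, σ ^ 2 = 1 → ∀ x ∈ SW σ, AA P x = 0 ∧ 0 < σ * BB P x ∧
    Crit 3 [AA P] (fun y => -σ * BW P y) i x

/-- row CT: the poles and the critical points near the knot -/
structure CritT (P : Prof) : Prop where
  pole : ∀ x : S4, sc x ^ 2 = 1 → 0 < AA P x ∧ Crit 4 [] (fun y => -HH P y) 0 x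
  o : ∀ x : S4, ct 1 0 0 = x → 0 < AA P x ∧ Crit 4 [] (fun y => -HH P y) 1 x
  h : ∀ x : S4, ct (-1) 0 0 = x → BB P x = 0 ∧ AA P x < 0 ∧ Crit 3 [BB P] (HH P) 1 x
  w : ∀ σ : ℝ, σ ^ 2 = 1 → ∀ x : S4, ct 1 (σ * √P.ε * I) 0 = x → AA P x = 0 ∧ 0 < σ * BB P x ∧
    Crit 3 [AA P] (fun y => -σ * BW P y) 1 x

def CZ (P : Prof) : Prop :=
  CritA P 0 (fun σ => PZ 2 (-(σ * I)) 0) (PZ 4 1 0) fun σ => PZ 2 (-(σ * I)) 6
def CW (P : Prof) : Prop := CritA P 1 (fun σ => PW 3 (σ * I) 0) (PW 6 1 0) fun σ => PW 3 (σ * I) 5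

def SmoStmt : Prop := ∀ P, Smo P
def WtStmt : Prop := ∀ P, Wt P
def DirStmt : Prop := ∀ P, Wt P → Smo P → Dirs P
def CasesStmt : Prop := ∀ P, Wt P → Smo P → Dirs P → Cases P
def CZStmt : Prop := ∀ P, Wt P → Smo P → CZ P
def CWStmt : Prop := ∀ P, Wt P → Smo P → CW P
def CTStmt : Prop := ∀ P, Wt P → Smo P → CritT P
def CoreStmt : Prop := ∀ P, Wt P → Smo P → IsConnected {x : S4 | AA P x = 0 ∧ BB P x = 0}
def AsmStmt : Prop := ∀ P, Wt P → Smo P → Cases P → CZ P → CW P → CritT P →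
  IsConnected {x : S4 | AA P x = 0 ∧ BB P x = 0} → Model (AA P) (BB P)

theorem model_of (h1 : SmoStmt) (h2 : WtStmt) (h3 : DirStmt) (h4 : CasesStmt) (h5 : CZStmt)
    (h6 : CWStmt) (h7 : CTStmt) (h8 : CoreStmt) (h9 : AsmStmt) : ModelStmt := fun P =>
  h9 P (h2 P) (h1 P) (h4 P (h2 P) (h1 P) (h3 P (h2 P) (h1 P))) (h5 P (h2 P) (h1 P))
    (h6 P (h2 P) (h1 P)) (h7 P (h2 P) (h1 P)) (h8 P (h2 P) (h1 P))

end Pool.Agent.MP_7ebdba_gt.sm.m

end
end MrgPart3

-- marker of a merged file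
example : 731051 + 65662 = 731051 + 65662 := rfl

end MrgPart0

-- ======== part 1: formerly Pool.Agent.MP_7ebdba_gt.sm.m.Cases
section MrgPart1

/-! Row CASES: good directions off the critical points. -/

open scoped ContDiff Topology ComplexConjugate
open Set Complex Filter

noncomputable section

namespace Pool.Agent.MP_7ebdba_gt.sm.m.Cs

/-- real data of a point near the knot -/
structure ND (P : Prof) (x : S4) (a1 a2 c1 c2 t l e : ℝ) : Prop where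
  ua : a1 ^ 2 + a2 ^ 2 = 1
  lp : 0 < l
  e0 : 0 ≤ e
  e1 : e ≤ P.ε
  ee : c1 ^ 2 + c2 ^ 2 ≤ 1 / 125 → e = P.ε
  pt : ct ⟨a1, a2⟩ ⟨c1, c2⟩ t = x
  st : sc x ^ 2 = t ^ 2 / (1 + t ^ 2)
  hA : AA P x = -(c1 ^ 2 + c2 ^ 2) + e * a1 + t ^ 2
  hB : BB P x = c2
  dir : ∀ τ t' u1 u2 h : ℝ, h = -l * (2 * (c1 * u1 + c2 * u2)) - e * a2 * τ + 2 * t * t' →
    Dir P x h u2 u2

/-- real data of a point away from the knot -/
structure FD (P : Prof) (x : S4) (co si t f f' b b' g g' ξ : ℝ) : Prop where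
  un : co ^ 2 + si ^ 2 = 1
  f6 : f < 6
  fp : 0 < f'
  bp : 0 < b
  bd : b' ≤ 0
  gp : 0 < g
  gd : g' < 0
  st : sc x ^ 2 = t ^ 2 / (1 + t ^ 2)
  hA : AA P x = f + t ^ 2 - 6
  hB : BB P x = b * si
  ax : ξ = 1 ∨ ξ = 0 ∧ (f = 0 ∧ (∃ o, o ^ 2 = -(⟨co, si⟩ : ℂ) ∧ nrm 0 o t = x) ∨
    f = 1 ∧ ∃ ζ, ζ ^ 3 = (⟨co, si⟩ : ℂ) ∧ nrm ζ 0 t = x)
  dir : ∀ τ s t' h β γ : ℝ, s = 0 ∨ s = ξ → h = f' * s + 2 * t * t' → β = b' * s * si + b * τ * co →
    γ = g' * s * si + g * τ * co → Dir P x h β γ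

variable {P : Prof}

theorem gam_der (S : Smo P) (X : ℝ) : 0 < gam P X ∧ deriv (gam P) X < 0 := by
  have h6 : 0 < 6 - P.F X := sub_pos.2 (S.F6 X)
  have h0 : 0 < √(6 - P.F X) := Real.sqrt_pos.2 h6
  have hd : HasDerivAt P.F (deriv P.F X) X :=
    ((P.F_sm.differentiable (by simp)) X).hasDerivAt
  have := ((hd.const_sub 6).sqrt h6.ne').deriv
  refine ⟨h0, ?_⟩
  unfold gam
  rw [this]
  exact div_neg_of_neg_of_pos (neg_neg_of_pos (P.F_pos X)) (by positivity)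

theorem sq_unit {a : ℂ} (h : ‖a‖ = 1) : a.re ^ 2 + a.im ^ 2 = 1 := by
  have := normSq_eq_norm_sq a
  rw [h, normSq_apply] at this
  linarith

theorem data (W : Wt P) (S : Smo P) (D : Dirs P) (x : S4) (hx : sc x ^ 2 < 8 / 9) :
    (∃ a1 a2 c1 c2 t l e, ND P x a1 a2 c1 c2 t l e) ∨
      ∃ co si t f f' b b' g g' ξ, FD P x co si t f f' b b' g g' ξ := by
  rcases W.cov x hx with ⟨a, c, t, ha, hc, ht, e⟩ | ⟨z, w, t, hp, hn, ht, e, hz⟩
  · left
    have hr : normSq c = c.re ^ 2 + c.im ^ 2 := by rw [normSq_apply]; ring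
    obtain ⟨v1, v2, -⟩ := W.nv a c t ha hc ht.le
    have a0 : a ^ 2 ≠ 0 := pow_ne_zero _ (norm_ne_zero_iff.1 (by simp [ha]))
    obtain ⟨r, -, -, -, -, hs⟩ := W.co (a ^ 2) (a ^ 3 * Complex.sqrt (1 - c * conj a ^ 6)) t
      (Or.inl a0)
    have hre : |a.re| ≤ 1 := ha ▸ abs_re_le_norm a
    refine ⟨a.re, a.im, c.re, c.im, t, 1 - P.ε * deriv P.χ (normSq c) * a.re,
      P.ε * P.χ (normSq c), sq_unit ha, ?_, mul_nonneg P.ε_pos.le (P.χ_mem _).1,
      mul_le_of_le_one_right P.ε_pos.le (P.χ_mem _).2, fun h => ?_, e, ?_, ?_, ?_,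
      fun τ t' u1 u2 h hh => ?_⟩
    · have h1 := P.ε_der (normSq c)
      have h2 : P.ε * deriv P.χ (normSq c) * a.re ≤ P.ε * |deriv P.χ (normSq c)| := by
        rw [mul_assoc]
        refine mul_le_mul_of_nonneg_left ((le_abs_self _).trans ?_) P.ε_pos.le
        rw [abs_mul]
        exact mul_le_of_le_one_right (abs_nonneg _) hre
      linarith
    · rw [P.χ_lo _ (hr ▸ h), mul_one]
    · rw [← e]
      exact hs
    · rw [AA, ← e, v1, ← hr]
      ring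
    · rw [← e, v2]
    · have := D.near x a c t ha hc ht e τ t' ⟨u1, u2⟩
      convert this using 1
      rw [hh]
      ring
  · right
    have h1 : normSq z ^ 3 < 100 * normSq (pf z w) := by
      have := normSq_pos.2 hp
      simp only [Near, not_lt] at hn
      linarith
    obtain ⟨v1, v2, -⟩ := W.fv z w t hp h1 ht.le
    obtain ⟨r, -, -, -, -, hs⟩ := W.co z w t (zw_ne hp)
    have key : ∀ ξ : ℝ, (ξ = 0 ∨ z * w ≠ 0) →
        (ξ = 1 ∨ ξ = 0 ∧ (P.F (xf z w) = 0 ∧ (∃ o, o ^ 2 = -ph (pf z w) ∧ nrm 0 o t = x) ∨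
          P.F (xf z w) = 1 ∧ ∃ ζ, ζ ^ 3 = ph (pf z w) ∧ nrm ζ 0 t = x)) →
        FD P x (ph (pf z w)).re (ph (pf z w)).im t (P.F (xf z w)) (deriv P.F (xf z w))
          (P.β (xf z w)) (deriv P.β (xf z w)) (gam P (xf z w)) (deriv (gam P) (xf z w)) ξ := by
      intro ξ hξ hax
      refine ⟨sq_unit (norm_ph hp), S.F6 _, P.F_pos _, P.β_pos _, P.β_der _, (gam_der S _).1,
        (gam_der S _).2, e ▸ hs, by rw [AA, ← e, v1], by rw [← e, v2], hax, ?_⟩
      rintro τ s t' h β γ hs rfl rfl rfl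
      refine D.far x z w t hp hn ht e τ s t' ?_
      rcases hs with rfl | rfl
      · exact Or.inl rfl
      · exact hξ
    rcases hz with hz | ⟨rfl, hw⟩ | ⟨rfl, hz⟩
    · exact ⟨_, _, _, _, _, _, _, _, _, 1, key 1 (Or.inr hz) (Or.inl rfl)⟩
    · refine ⟨_, _, _, _, _, _, _, _, _, 0, key 0 (Or.inl rfl) (Or.inr ⟨rfl, Or.inl ⟨?_, w, ?_, e⟩⟩)⟩
      · rw [show xf 0 w = 0 by simp [xf], P.F_lo _ (by norm_num)]
      · rw [ph_unit (by simp [pf, hw])]
        simp [pf]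
    · refine ⟨_, _, _, _, _, _, _, _, _, 0, key 0 (Or.inl rfl) (Or.inr ⟨rfl, Or.inr ⟨?_, z, ?_, e⟩⟩)⟩
      · rw [show xf z 0 = 1 by simp [xf, pf, normSq_eq_norm_sq, hz], P.F_lo _ (by norm_num)]
      · rw [ph_unit (by simp [pf, hz])]
        simp [pf]

theorem pm {a : ℝ} (h : a ^ 2 = 1) : a = 1 ∨ a = -1 := mul_self_eq_one_iff.1 (by rw [← sq, h])

theorem sq0 {a : ℝ} (h : a ^ 2 ≤ 0) : a = 0 := by nlinarith [sq_nonneg a, sq_abs a, abs_nonneg a]

theorem t0 {s t : ℝ} (h : s ^ 2 = t ^ 2 / (1 + t ^ 2)) (h0 : s ^ 2 = 0) : t = 0 := by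
  rw [h0, eq_comm, div_eq_zero_iff] at h
  rcases h with h | h
  · exact sq0 h.le
  · nlinarith [sq_nonneg t]

/-- the common direction near the knot vanishes only over the two critical circles -/
theorem ND.deg {x : S4} {a1 a2 c1 c2 t l e : ℝ} (N : ND P x a1 a2 c1 c2 t l e) (h1 : c1 = 0)
    (h2 : c2 = 0) (h3 : t = 0) (h4 : e * a2 ^ 2 ≤ 0) :
    0 < AA P x ∧ ct 1 0 0 = x ∨ AA P x < 0 ∧ ct (-1) 0 0 = x := by
  subst h1 h2 h3
  have he : e = P.ε := N.ee (by norm_num)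
  have hε := P.ε_pos
  have h5 : a2 = 0 := sq0 (by rw [he] at h4; nlinarith [sq_nonneg a2])
  subst h5
  have hA := N.hA
  have pt := N.pt
  rcases pm (a := a1) (by simpa using N.ua) with rfl | rfl
  · exact Or.inl ⟨by rw [hA, he]; simpa using hε, pt⟩
  · refine Or.inr ⟨by rw [hA, he]; simpa using hε, ?_⟩
    rw [← pt]
    congr 1
    apply Complex.ext <;> simp

theorem sgn {σ si : ℝ} (hσ : σ ^ 2 = 1) (h : si ^ 2 = 1) (h0 : 0 ≤ σ * si) : si = σ := by
  rcases pm hσ with rfl | rfl <;> rcases pm h with rfl | rfl <;> first | rfl | linarith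

theorem mkI (σ : ℝ) : (⟨0, σ⟩ : ℂ) = σ * I := by apply Complex.ext <;> simp

variable (W : Wt P) (S : Smo P) (D : Dirs P)
include W S D

theorem co (x : S4) (h : 0 ≤ AA P x) (h1 : sc x ^ 2 ≠ 1) (h2 : ct 1 0 0 ≠ x) :
    ∃ v, Tangent [] x v ∧ fderiv ℝ (HH P) x v < 0 := by
  have hs : sc x ^ 2 < 1 := lt_of_le_of_ne
    (by linarith [sph x, normSq_nonneg (zc x), normSq_nonneg (wc x)]) h1
  rcases (sq_nonneg (sc x)).eq_or_lt with h0 | h0
  swap
  · exact D.mid x h0 hs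
  rcases data W S D x (by rw [← h0]; norm_num) with ⟨a1, a2, c1, c2, t, l, e, N⟩ |
    ⟨co, si, t, f, f', b, b', g, g', ξ, N⟩
  · have ht := t0 N.st h0.symm
    obtain ⟨v, v1, v2, -⟩ := N.dir a2 0 c1 c2 _ rfl
    refine ⟨v, v1, v2 ▸ ?_⟩
    by_contra hc
    have a := mul_nonneg N.e0 (sq_nonneg a2)
    have b1 := mul_nonneg N.lp.le (sq_nonneg c1)
    have b2 := mul_nonneg N.lp.le (sq_nonneg c2)
    have lp := N.lp
    rcases N.deg (sq0 (by nlinarith [sq_nonneg c1])) (sq0 (by nlinarith [sq_nonneg c2])) ht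
      (by nlinarith) with k | k
    · exact h2 k.2
    · linarith [k.1]
  · have := N.hA
    rw [t0 N.st h0.symm] at this
    linarith [N.f6]

theorem tr (x : S4) (h : AA P x ≤ 0) (h1 : BB P x = 0) : ∃ b g, b ≠ 0 ∧ Dir P x 0 b g := by
  rcases data W S D x (S.low x h) with ⟨a1, a2, c1, c2, t, l, e, N⟩ |
    ⟨co, si, t, f, f', b, b', g, g', ξ, N⟩
  · exact ⟨1, 1, one_ne_zero, N.dir 0 0 0 1 0 (by rw [← N.hB, h1]; ring)⟩
  · have hs : si = 0 := (mul_eq_zero.1 (N.hB ▸ h1)).resolve_left N.bp.ne'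
    have hc : co ≠ 0 := fun a => by simpa [hs, a] using N.un
    exact ⟨b * co, _, mul_ne_zero N.bp.ne' hc, N.dir 1 0 0 0 _ _ (Or.inl rfl) (by ring) (by ring) rfl⟩

theorem cx (σ : ℝ) (hσ : σ ^ 2 = 1) (x : S4) (h : AA P x ≤ 0) (h1 : 0 ≤ σ * BB P x)
    (h2 : x ∉ PZ 2 (-(σ * I)) 0) (h3 : x ∉ PW 3 (σ * I) 0) :
    ∃ h b g, Dir P x h b g ∧ 0 < h - σ * b ∧ (AA P x = 0 → 0 < h) ∧ (BB P x = 0 → σ * b < 0) := by
  rcases data W S D x (S.low x h) with ⟨a1, a2, c1, c2, t, l, e, N⟩ |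
    ⟨co, si, t, f, f', b, b', g, g', ξ, N⟩
  · rw [N.hB] at h1
    have a := mul_nonneg N.e0 (sq_nonneg a2)
    have b1 := mul_nonneg N.lp.le (sq_nonneg c1)
    have b2 := mul_nonneg N.lp.le h1
    have lp := N.lp
    have tp := sq_nonneg t
    refine ⟨2 * (l * c1 ^ 2) + 2 * (l * (σ * c2)) + e * a2 ^ 2 + 2 * t ^ 2, -σ, -σ,
      N.dir (-a2) t (-c1) (-σ) _ (by ring), by nlinarith, fun hA => ?_, fun _ => by nlinarith⟩
    by_contra hc
    have k2 : σ * c2 = 0 := le_antisymm (by nlinarith) h1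
    have k3 : c2 = 0 := (mul_eq_zero.1 k2).resolve_left fun a => by simp [a] at hσ
    rcases N.deg (sq0 (by nlinarith [sq_nonneg c1])) k3 (sq0 (by linarith)) (by linarith)
      with k | k <;> linarith [k.1]
  · have bp := N.bp
    have hs : 0 ≤ σ * si := by
      rw [N.hB] at h1
      by_contra hc
      nlinarith
    have tp := sq_nonneg t
    have cp := mul_nonneg bp.le (sq_nonneg co)
    have e1 : σ * (b' * ξ * si + b * (-σ * co) * co) = b' * ξ * (σ * si) - b * co ^ 2 := by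
      linear_combination (-b * co ^ 2) * hσ
    refine ⟨f' * ξ + 2 * t ^ 2, _, _, N.dir (-σ * co) ξ t _ _ _ (Or.inr rfl) (by ring) rfl rfl,
      ?_, fun hA => ?_, fun hB => ?_⟩
    · rw [e1]
      rcases N.ax with rfl | ⟨rfl, k⟩
      · nlinarith [N.fp, mul_nonneg (neg_nonneg.2 N.bd) hs]
      by_contra hc
      have k1 : t = 0 := sq0 (by linarith)
      have k2 : co = 0 := sq0 (by nlinarith [sq_nonneg co])
      have k3 : si = σ := sgn hσ (by simpa [k2] using N.un) hs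
      rw [k2, k3, mkI] at k
      rcases k with ⟨-, o, k, k'⟩ | ⟨-, o, k, k'⟩
      · exact h2 ⟨o, t, k, by simp [k1], k'⟩
      · exact h3 ⟨o, t, k, by simp [k1], k'⟩
    · have := N.hA
      have := N.f6
      rcases N.ax with rfl | ⟨rfl, -⟩ <;> linarith [N.fp]
    · have k : si = 0 := (mul_eq_zero.1 (N.hB ▸ hB)).resolve_left bp.ne'
      have k2 : co ^ 2 = 1 := by simpa [k] using N.un
      rw [e1, k, k2]
      linarith

theorem ch (x : S4) (h : AA P x ≤ 0) (h1 : BB P x = 0) (h2 : x ∉ PZ 4 1 0) (h3 : x ∉ PW 6 1 0)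
    (h4 : ct (-1) 0 0 ≠ x) : ∃ h g, 0 < h ∧ Dir P x h 0 g := by
  rcases data W S D x (S.low x h) with ⟨a1, a2, c1, c2, t, l, e, N⟩ |
    ⟨co, si, t, f, f', b, b', g, g', ξ, N⟩
  · have a := mul_nonneg N.e0 (sq_nonneg a2)
    have b1 := mul_nonneg N.lp.le (sq_nonneg c1)
    have lp := N.lp
    have tp := sq_nonneg t
    refine ⟨2 * (l * c1 ^ 2) + e * a2 ^ 2 + 2 * t ^ 2, 0, ?_, N.dir (-a2) t (-c1) 0 _ (by ring)⟩
    by_contra hc
    rcases N.deg (sq0 (by nlinarith [sq_nonneg c1])) (N.hB ▸ h1) (sq0 (by linarith))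
      (by linarith) with k | k
    · linarith [k.1]
    · exact h4 k.2
  · have k : si = 0 := (mul_eq_zero.1 (N.hB ▸ h1)).resolve_left N.bp.ne'
    have k2 : co ^ 2 = 1 := by simpa [k] using N.un
    have k3 : (⟨co, si⟩ : ℂ) ^ 2 = 1 := by
      apply Complex.ext <;> simp [sq, k]
      linarith
    have tp := sq_nonneg t
    refine ⟨f' * ξ + 2 * t ^ 2, _, ?_, N.dir 0 ξ t _ _ _ (Or.inr rfl) (by ring) (by rw [k]; ring) rfl⟩
    rcases N.ax with rfl | ⟨rfl, k⟩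
    · linarith [N.fp]
    by_contra hc
    have k1 : t = 0 := sq0 (by linarith)
    rcases k with ⟨-, o, k, k'⟩ | ⟨-, o, k, k'⟩
    · exact h2 ⟨o, t, by rw [show o ^ 4 = (o ^ 2) ^ 2 by ring, k, neg_sq, k3], by simp [k1], k'⟩
    · exact h3 ⟨o, t, by rw [show o ^ 6 = (o ^ 3) ^ 2 by ring, k, k3], by simp [k1], k'⟩

theorem cw (σ : ℝ) (hσ : σ ^ 2 = 1) (x : S4) (h : AA P x = 0) (h1 : 0 ≤ σ * BB P x)
    (h2 : x ∉ PZ 2 (-(σ * I)) 6) (h3 : x ∉ PW 3 (σ * I) 5) (h4 : ct 1 (σ * √P.ε * I) 0 ≠ x) :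
    ∃ b g, Dir P x 0 b g ∧ σ * g < 0 ∧ (BB P x = 0 → σ * b < 0) := by
  rcases data W S D x (S.low x h.le) with ⟨a1, a2, c1, c2, t, l, e, N⟩ |
    ⟨co, si, t, f, f', b, b', g, g', ξ, N⟩
  · have hn : σ * -σ < 0 := by nlinarith
    refine ⟨-σ, -σ, ?_, hn, fun _ => hn⟩
    by_cases ht : t ≠ 0
    · exact N.dir 0 (-l * σ * c2 / t) 0 _ _ (by field_simp; ring)
    by_cases hc : c1 ≠ 0
    · exact N.dir 0 0 (σ * c2 / c1) _ _ (by field_simp; ring)
    by_cases ha : e * a2 ≠ 0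
    · have he := left_ne_zero_of_mul ha
      have ha2 := right_ne_zero_of_mul ha
      exact N.dir (2 * l * σ * c2 / (e * a2)) 0 0 _ _ (by field_simp; ring)
    exfalso
    push Not at ht hc ha
    subst ht hc
    have hA := N.hA
    have ua := N.ua
    have hε := P.ε_pos
    have u1 : a1 ≤ 1 := by nlinarith [sq_nonneg a2]
    have he : e = P.ε := N.ee (by nlinarith [N.e0, N.e1, P.ε_lt])
    have k : a2 = 0 := (mul_eq_zero.1 ha).resolve_left (he ▸ hε.ne')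
    subst k
    rw [h, he] at hA
    have k1 : a1 = 1 := (pm (a := a1) (by simpa using ua)).resolve_right fun a => by
      rw [a] at hA
      nlinarith [sq_nonneg c2]
    subst k1
    rw [N.hB] at h1
    have k2 : σ * c2 = √P.ε := by
      rw [eq_comm, Real.sqrt_eq_iff_mul_self_eq hε.le h1]
      linear_combination (-c2 ^ 2) * hσ - hA
    have k3 : c2 = σ * √P.ε := by linear_combination σ * k2 - c2 * hσ
    refine h4 ?_
    rw [← N.pt, k3, mkI, ofReal_mul]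
    rfl
  · have bp := N.bp
    have hA := N.hA
    have f6 := N.f6
    have ht : t ≠ 0 := fun a => by rw [h, a] at hA; linarith
    by_cases hc : co ≠ 0
    · have c2 : 0 < co ^ 2 := by positivity
      have e1 : ∀ u v : ℝ, σ * (u * 0 * si + v * (-σ * co) * co) = -(v * co ^ 2) := fun u v => by
        linear_combination (-v * co ^ 2) * hσ
      exact ⟨_, _, N.dir (-σ * co) 0 0 _ _ _ (Or.inl rfl) (by ring) rfl rfl,
        by rw [e1]; exact neg_neg_of_pos (mul_pos N.gp c2),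
        fun _ => by rw [e1]; exact neg_neg_of_pos (mul_pos bp c2)⟩
    push Not at hc
    have hs : 0 ≤ σ * si := by
      rw [N.hB] at h1
      by_contra hc
      nlinarith
    have k3 : si = σ := sgn hσ (by simpa [hc] using N.un) hs
    rcases N.ax with rfl | ⟨rfl, k⟩
    · refine ⟨_, _, N.dir 0 1 (-f' / (2 * t)) _ _ _ (Or.inr rfl) (by field_simp; ring) rfl rfl,
        ?_, fun hB => ?_⟩
      · rw [k3]
        nlinarith [N.gd]
      · rw [N.hB, k3] at hB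
        have := (mul_eq_zero.1 hB).resolve_left bp.ne'
        simp [this] at hσ
    exfalso
    rw [hc, k3, mkI] at k
    rcases k with ⟨f0, o, k, k'⟩ | ⟨f0, o, k, k'⟩
    · exact h2 ⟨o, t, k, by linarith, k'⟩
    · exact h3 ⟨o, t, k, by linarith, k'⟩

end Pool.Agent.MP_7ebdba_gt.sm.m.Cs

namespace Pool.Agent.MP_7ebdba_gt.sm.m

theorem cases : CasesStmt := fun _ W S D =>
  ⟨Cs.co W S D, Cs.tr W S D, Cs.cx W S D, Cs.ch W S D, Cs.cw W S D⟩

end Pool.Agent.MP_7ebdba_gt.sm.m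

end
end MrgPart1

-- ======== part 2: formerly Pool.Agent.MP_7ebdba_gt.sm.m.Cw
section MrgPart2

/-! Block M: the critical points over the axis `w = 0`. -/

open scoped ContDiff Topology ComplexConjugate
open Set Complex Filter

noncomputable section

namespace Pool.Agent.MP_7ebdba_gt.sm.m

namespace Cw
variable {n : ℕ}

def q : E (n + 3) →L[ℝ] ℂ :=
  ofRealCLM.comp (EuclideanSpace.proj 0) + I • ofRealCLM.comp (EuclideanSpace.proj 1)

theorem q_apply (y : E (n + 3)) : q y = y 0 + I * y 1 := rfl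

def X (y : E (n + 3)) : ℝ := ((1 + y 0 ^ 2 - y 1 ^ 2) ^ 2 + 4 * (y 0 ^ 2 * y 1 ^ 2)) ^ (1 / 3 : ℝ)

theorem jetX : Jet (X (n := n)) 1 (Pi.single 0 (2 / 3) - Pi.single 1 (2 / 3)) := by
  have h1 := ((Jet.const (n := n + 3) 1).add (Jet.sq 0)).sub (Jet.sq 1)
  have h2 := ((h1.mul h1).add (((Jet.sq 0).mul (Jet.sq 1)).smul 4)).cast (b := 1) (by norm_num)
    fun _ => rfl
  refine ((h2.comp (Real.hasDerivAt_rpow_const (p := 1 / 3) (Or.inl one_ne_zero))).cast (by simp)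
    fun j => ?_).congr (Eventually.of_forall fun y => by simp only [X, pow_two])
  simp only [Pi.single_apply, Pi.smul_apply, Pi.add_apply, Pi.sub_apply, smul_eq_mul, Pi.zero_apply,
    Real.one_rpow]
  split_ifs <;> norm_num

theorem main {P : Prof} (W : Wt P) {ζ κ : ℂ} (hζ : ζ ^ 3 = κ) (hκ : ‖κ‖ = 1)
    (u : E (n + 3) →L[ℝ] ℝ) {t : E (n + 3) → ℝ} (ht : ContDiffAt ℝ ∞ t 0) (ht8 : t 0 ^ 2 < 8)
    (m : ℝ) (T : E (n + 3) →L[ℝ] ℝ) (hT : HasFDerivAt (fun y => m * t y) T 0)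
    (inj : ∀ y : E (n + 3), y 0 = 0 → y 1 = 0 → u y = 0 → T y = 0 → y = 0) {x : S4}
    (hx : nrm ζ 0 (t 0) = x) : ∃ φ : E (n + 3) → E 5, φ 0 = x ∧
      (∀ᶠ y in 𝓝 0, HH P (φ y) = X y + t y ^ 2 ∧ BB P (φ y) = (κ * exp (↑(6 * u y) * I)).im ∧
        BW P (φ y) = √(6 - X y) * (κ * exp (↑(6 * u y) * I)).im) ∧
      ∀ i es k c, (∀ᶠ y in 𝓝 0, ∀ e ∈ es, e (φ y) = 0) → (∀ j, c j ≠ 0) → {j | c j < 0}.ncard = i →
        Jet (fun y => k (φ y)) (k x) c → Crit (n + 3) es k i x := by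
  obtain ⟨o, ho⟩ : ∃ o : ℂ, o ^ 2 = κ := ⟨κ ^ ((2 : ℕ) : ℂ)⁻¹, cpow_nat_inv_pow _ two_ne_zero⟩
  have hκ0 : κ ≠ 0 := norm_ne_zero_iff.1 (by simp [hκ])
  have hζ0 : ζ ≠ 0 := fun e => hκ0 (by simp [← hζ, e])
  have ho0 : o ≠ 0 := fun e => hκ0 (by simp [← ho, e])
  let a : E (n + 3) → ℂ := fun y => exp (u y * I)
  let z : E (n + 3) → ℂ := fun y => a y ^ 2 * (ζ * (1 + q y ^ 2) ^ ((3 : ℕ) : ℂ)⁻¹)
  let w : E (n + 3) → ℂ := fun y => a y ^ 3 * (o * q y)
  have ca : ContDiffAt ℝ ∞ a 0 := cda_cexp ((cda_ofReal u.contDiff.contDiffAt).mul contDiffAt_const)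
  have cq : ContDiffAt ℝ ∞ (q (n := n)) 0 := q.contDiff.contDiffAt
  have cr : ContDiffAt ℝ ∞ (fun y : E (n + 3) => (1 + q y ^ 2) ^ ((3 : ℕ) : ℂ)⁻¹) 0 := by
    have : AnalyticAt ℂ (fun c : ℂ => c ^ ((3 : ℕ) : ℂ)⁻¹) (1 + q (0 : E (n + 3)) ^ 2) :=
      analyticAt_id.cpow analyticAt_const (by simp)
    exact ((this.contDiffAt (n := ∞)).restrict_scalars ℝ).comp 0 (contDiffAt_const.add (cq.pow 2))
  have a6 : ∀ y, a y ^ 6 = exp (↑(6 * u y) * I) := fun y => by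
    rw [← exp_nat_mul]
    congr 1
    push_cast
    ring
  have z3 : ∀ y, z y ^ 3 = a y ^ 6 * (κ * (1 + q y ^ 2)) := fun y => by
    simp only [z, mul_pow, cpow_nat_inv_pow _ three_ne_zero, hζ, ← pow_mul]
  have hp : ∀ y, pf (z y) (w y) = κ * exp (↑(6 * u y) * I) := fun y => by
    rw [pf, z3, ← a6, ← ho]
    ring
  have np : ∀ y, ‖pf (z y) (w y)‖ = 1 := fun y => by rw [hp, norm_mul, hκ, norm_exp_ofReal_mul_I, one_mul]
  have np0 : ∀ y, pf (z y) (w y) ≠ 0 := fun y => norm_ne_zero_iff.1 (by simp [np])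
  have nz : ∀ y, normSq (z y) ^ 3 = (1 + y 0 ^ 2 - y 1 ^ 2) ^ 2 + 4 * (y 0 ^ 2 * y 1 ^ 2) := fun y => by
    rw [← map_pow, z3, a6, map_mul, map_mul, normSq_eq_norm_sq, normSq_eq_norm_sq κ, hκ,
      norm_exp_ofReal_mul_I, q_apply]
    simp only [normSq_apply, pow_two, add_re, add_im, mul_re, mul_im, one_re, one_im, ofReal_re,
      ofReal_im, I_re, I_im]
    ring
  have hX : ∀ y, xf (z y) (w y) = X y := fun y => by
    rw [xf, normSq_eq_norm_sq (pf _ _), np, X, ← nz, one_div, one_pow, Real.one_rpow, div_one]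
    exact (Real.pow_rpow_inv_natCast (n := 3) (normSq_nonneg _) three_ne_zero).symm
  have z0 : z 0 = ζ := by simp [z, a]
  have w0 : w 0 = 0 := by simp [w]
  refine ⟨fun y => N3 (z y, w y, t y), by simp only [N3, z0, w0, hx], ?_, fun i es k c h1 h2 h3 h4 => ?_⟩
  · filter_upwards [jetX.tendsto.eventually (eventually_lt_nhds (by norm_num : (1 : ℝ) < 3)),
      (ht.continuousAt.pow 2).eventually_lt continuousAt_const ht8] with y b1 b2
    have b3 : normSq (z y) ^ 3 < 100 * normSq (pf (z y) (w y)) := by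
      have := hX y
      rw [xf, normSq_eq_norm_sq (pf _ _), np, one_pow, Real.one_rpow, div_one] at this
      rw [this, normSq_eq_norm_sq, np]
      nlinarith [normSq_nonneg (z y), pow_lt_pow_left₀ b1 (this ▸ normSq_nonneg (z y)) three_ne_zero]
    obtain ⟨c1, c2, c3⟩ := W.fv _ _ (t y) (np0 y) b3 b2.le
    rw [hX, ph_unit (np y), hp, P.β_lo _ b1.le, one_mul] at c2
    rw [hX, ph_unit (np y), hp, gam, P.F_lo _ b1.le] at c3
    rw [hX, P.F_lo _ b1.le] at c1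
    exact ⟨c1, c2, c3⟩
  · have du : HasFDerivAt (fun y => Real.sin (6 * u y)) ((6 : ℝ) • u) 0 := by
      simpa using (u.hasFDerivAt.const_mul 6 (x := 0)).sin
    have dw : HasFDerivAt w (o • q) 0 := by
      refine ((cd1 (ca.pow 3)).hasFDerivAt.mul (q.hasFDerivAt.const_mul o (x := 0))).congr_fderiv ?_
      ext v
      simp [a]
    refine W.crit _ i es k x (fun y => (z y, w y, t y))
      (fun y => (y.2.1 / √‖pf y.1 y.2.1‖, (ph (pf y.1 y.2.1) / κ).im, m * y.2.2))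
      ((o • q).prod (((6 : ℝ) • u).prod T)) c
      (((ca.pow 2).mul (contDiffAt_const.mul cr)).prodMk
        (((ca.pow 3).mul (contDiffAt_const.mul cq)).prodMk ht))
      (Or.inl (by simpa [z0] using hζ0)) (by simp only [N3, z0, w0, hx]) (cd1 ?_)
      (fun r z w t hr => ?_) ?_ ?_ h1 h2 h3 h4
    · have b := cda_pf (y := (z 0, w 0, t 0)) contDiffAt_fst contDiffAt_snd.fst
      have b0 := norm_ne_zero_iff.2 (np0 0)
      exact (cda_div contDiffAt_snd.fst (cda_ofReal ((cda_norm b (np0 0)).sqrt b0))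
        (by simp [np])).prodMk ((cda_im (cda_div (cda_ph b (np0 0)) contDiffAt_const hκ0)).prodMk
          (contDiffAt_const.mul contDiffAt_snd.snd))
    · have e : √‖pf (r ^ 2 * z) (r ^ 3 * w)‖ = r ^ 3 * √‖pf z w‖ := by
        rw [pf_smul, norm_mul, norm_pow, norm_real, Real.norm_of_nonneg hr.le,
          Real.sqrt_mul (by positivity), show r ^ 6 = (r ^ 3) ^ 2 by ring,
          Real.sqrt_sq (by positivity)]
      simp only [e, ph_pf_smul, ph_pos hr, one_pow, one_mul, ofReal_mul, ofReal_pow]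
      rw [mul_div_mul_left _ _ (pow_ne_zero 3 (ofReal_ne_zero.2 hr.ne'))]
    · refine (dw.prodMk (du.prodMk hT)).congr_of_eventuallyEq (Eventually.of_forall fun y => ?_)
      simp only [np, ph_unit (np y), Real.sqrt_one, ofReal_one, div_one]
      rw [hp, mul_div_cancel_left₀ _ hκ0, exp_ofReal_mul_I_im]
    · refine (injective_iff_map_eq_zero _).2 fun y hy => ?_
      simp only [ContinuousLinearMap.prod_apply, smul_apply, smul_eq_mul,
        Prod.mk_eq_zero, mul_eq_zero, ho0, false_or, q_apply, Complex.ext_iff] at hy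
      exact inj y (by simpa using hy.1.1) (by simpa using hy.1.2) (by simpa using hy.2.1) hy.2.2

theorem cdp (i : Fin (n + 3)) : ContDiffAt ℝ ∞ (fun y : E (n + 3) => y i) 0 :=
  (EuclideanSpace.proj i : E (n + 3) →L[ℝ] ℝ).contDiff.contDiffAt

theorem im_sig (σ v : ℝ) : (σ * I * exp (v * I)).im = σ * Real.cos v := by
  simp [exp_ofReal_mul_I_re]

end Cw

open Cw in
theorem cw : CWStmt := fun P W _ => by
  have ns : ∀ σ : ℝ, σ ^ 2 = 1 → ‖σ * I‖ = 1 := fun σ h => by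
    simpa [← sq_eq_sq₀ (abs_nonneg σ) zero_le_one] using h
  refine ⟨fun σ hσ x ⟨ζ, t, h1, h2, h3⟩ => ?_, fun x ⟨ζ, t, h1, h2, h3⟩ => ?_,
    fun σ hσ x ⟨ζ, t, h1, h2, h3⟩ => ?_⟩
  · obtain rfl : t = 0 := by simpa using h2
    obtain ⟨φ, a, b, c⟩ := main (n := 1) W h1 (ns σ hσ) (EuclideanSpace.proj 2) (t := fun y => y 3)
      (cdp 3) (by simp) 1 (EuclideanSpace.proj 3)
      (by simpa using (EuclideanSpace.proj (𝕜 := ℝ) (3 : Fin 4)).hasFDerivAt)
      (fun y a b c d => by ext i; fin_cases i <;> assumption) h3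
    have b0 := b.self_of_nhds
    rw [a, im_sig] at b0
    have e1 : HH P x = 1 := by simpa [X] using b0.1
    have e2 : σ * BB P x = 1 := by simpa [b0.2.1, pow_two] using hσ
    refine ⟨by simp only [AA, e1]; norm_num, by simp [e2], c 1 [] _ ![2 / 3, -(2 / 3), 18, 1]
      (by simp) (fun j => by fin_cases j <;> simp) ?_ ?_⟩
    · rw [Set.ncard_eq_one]
      exact ⟨1, by ext j; fin_cases j <;> simp <;> norm_num⟩
    · refine (((jetX.add (Jet.sq 3)).sub (Jet.cos 6 2)).cast (by simp [e1, e2]) fun j => ?_).congr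
        (b.mono fun y d => ?_)
      · fin_cases j <;> simp <;> norm_num
      · simp only [d.1, d.2.1, im_sig, ← mul_assoc, ← pow_two, hσ, one_mul]
        rfl
  · obtain rfl : t = 0 := by simpa using h2
    have k2 : (ζ ^ 3) ^ 2 = 1 := by rw [← pow_mul, h1]
    have k3 : (ζ ^ 3).im = 0 := by rcases sq_eq_one_iff.1 k2 with e | e <;> simp [e]
    obtain ⟨φ, a, b, c⟩ := main (n := 0) W (ζ := ζ) rfl
      (by rcases sq_eq_one_iff.1 k2 with e | e <;> simp [e]) 0 (t := fun y => y 2)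
      (cdp 2) (by simp) 1 (EuclideanSpace.proj 2)
      (by simpa using (EuclideanSpace.proj (𝕜 := ℝ) (2 : Fin 3)).hasFDerivAt)
      (fun y a b c d => by ext i; fin_cases i <;> assumption) h3
    have b0 := b.self_of_nhds
    rw [a] at b0
    have e1 : HH P x = 1 := by simpa [X] using b0.1
    refine ⟨by simpa [k3] using b0.2.1, by simp only [AA, e1]; norm_num,
      c 1 _ _ ![2 / 3, -(2 / 3), 1] (b.mono fun y d => by simpa [k3] using d.2.1)
      (fun j => by fin_cases j <;> simp) ?_ ?_⟩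
    · rw [Set.ncard_eq_one]
      exact ⟨1, by ext j; fin_cases j <;> simp <;> norm_num⟩
    · refine ((jetX.add (Jet.sq 2)).cast (by simp [e1]) fun j => ?_).congr (b.mono fun y d => d.1)
      fin_cases j <;> simp
  · have X0 : X (0 : E (0 + 3)) = 1 := by simp [X]
    have s5 : 0 < √5 := by positivity
    have cX : ContDiffAt ℝ ∞ (X (n := 0)) 0 :=
      ((((contDiffAt_const.add ((cdp 0).pow 2)).sub ((cdp 1).pow 2)).pow 2).add
        (contDiffAt_const.mul (((cdp 0).pow 2).mul ((cdp 1).pow 2)))).rpow_const_of_ne (by simp)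
    have t0 : t / √5 * √(6 - X (0 : E (0 + 3))) = t := by
      rw [X0, show (6 : ℝ) - 1 = 5 by norm_num, div_mul_cancel₀ _ s5.ne']
    obtain ⟨φ, a, b, c⟩ := main (n := 0) W h1 (ns σ hσ) (EuclideanSpace.proj 2)
      (t := fun y => t / √5 * √(6 - X y))
      (contDiffAt_const.mul ((contDiffAt_const.sub cX).sqrt (by rw [X0]; norm_num)))
      (by rw [t0, h2]; norm_num) 0 0 (by simpa using hasFDerivAt_const (0 : ℝ) (0 : E (0 + 3)))
      (fun y a b c d => by ext i; fin_cases i <;> assumption) (by rwa [t0])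
    have hA : ∀ᶠ y in 𝓝 0, AA P (φ y) = 0 := by
      filter_upwards [b, jetX.tendsto.eventually (eventually_lt_nhds (by norm_num : (1 : ℝ) < 3))]
        with y d e
      rw [AA, d.1, mul_pow, div_pow, h2, Real.sq_sqrt (by norm_num), Real.sq_sqrt (by linarith)]
      ring
    have b0 := b.self_of_nhds
    rw [a, im_sig, X0, show (6 : ℝ) - 1 = 5 by norm_num] at b0
    have e2 : σ * BB P x = 1 := by simpa [b0.2.1, pow_two] using hσ
    have e3 : -σ * BW P x = -√5 := by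
      rw [b0.2.2]
      simp only [map_zero, mul_zero, Real.cos_zero]
      linear_combination -√5 * hσ
    refine ⟨a ▸ hA.self_of_nhds, by simp [e2], c 1 _ _ ![1 / (3 * √5), -(1 / (3 * √5)), 18 * √5]
      (hA.mono fun y d => by simpa using d) (fun j => by fin_cases j <;> simp) ?_ ?_⟩
    · rw [Set.ncard_eq_one]
      exact ⟨1, by ext j; fin_cases j <;> simp [s5.le]⟩
    · have j1 := ((Jet.const 6).sub (jetX (n := 0))).cast (b := 5) (by norm_num) fun _ => rfl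
      refine (((j1.comp (Real.hasDerivAt_sqrt (by norm_num))).mul (Jet.cos 6 2)).neg.cast
        (by rw [e3, mul_one]) fun j => ?_).congr (b.mono fun y d => ?_)
      · fin_cases j <;> simp <;> ring
      · simp only [d.2.2, im_sig, EuclideanSpace.coe_proj]
        linear_combination -(√(6 - X y) * Real.cos (6 * y 2)) * hσ

end Pool.Agent.MP_7ebdba_gt.sm.m

end
end MrgPart2

-- ======== part 3: formerly Pool.Agent.MP_7ebdba_gt.sm.m.Smo
section MrgPart3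

/-! Row SM: smoothness and invariance of the model functions. -/

open scoped ContDiff Topology ComplexConjugate
open Set Filter Complex

noncomputable section

namespace Pool.Agent.MP_7ebdba_gt.sm.m

open mf

namespace Sm0

variable {z w : ℂ} (P : Prof)

theorem ev_near (h : Near z w) : ∀ᶠ y : ℂ × ℂ in 𝓝 (z, w), Near y.1 y.2 := isOpen_near.mem_nhds h

theorem c1 : ContDiffAt ℝ ∞ (fun y : ℂ × ℂ => y.1) (z, w) := contDiffAt_fst
theorem c2 : ContDiffAt ℝ ∞ (fun y : ℂ × ℂ => y.2) (z, w) := contDiffAt_snd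
theorem c3 : ContDiffAt ℝ ∞ (fun y : ℂ × ℂ => pf y.1 y.2) (z, w) := cda_pf c1 c2

theorem cd_tf (hz : z ≠ 0) : ContDiffAt ℝ ∞ (fun y : ℂ × ℂ => tf y.1 y.2) (z, w) :=
  (cda_normSq c3).div ((cda_normSq c1).pow 3) (pow_pos (normSq_pos.2 hz) 3).ne'

theorem cd_cf (hz : z ≠ 0) : ContDiffAt ℝ ∞ (fun y : ℂ × ℂ => cf y.1 y.2) (z, w) :=
  cda_div c3 (cda_ofReal ((cda_norm c1 hz).pow 3)) (by simpa using hz)

theorem cd_af (h : Near z w) : ContDiffAt ℝ ∞ (fun y : ℂ × ℂ => af y.1 y.2) (z, w) := by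
  have hz := near_z h
  have a := cda_ofReal ((cda_norm (c1 (w := w)) hz).sqrt (norm_ne_zero_iff.2 hz))
  have b := cda_csqrt (cda_div (c2.pow 2) (c1.pow 3) (pow_ne_zero 3 hz)) (near_slit h)
  exact cda_div c2 ((c1.mul a).mul b)
    (mul_ne_zero (mul_ne_zero hz (sqrt_norm_ne hz)) (near_sqrt h))

theorem cd_mf (h : z ≠ 0 ∨ w ≠ 0) : ContDiffAt ℝ ∞ (fun y : ℂ × ℂ => mf P y.1 y.2) (z, w) := by
  by_cases hn : Near z w
  · have a := cd_tf (w := w) (near_z hn)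
    exact ((contDiffAt_const.sub a).add ((contDiffAt_const.mul (P.χ_sm.contDiffAt.comp _ a)).mul
      (cda_re (cd_af hn)))).congr_of_eventuallyEq ((ev_near hn).mono fun y => mf_near P)
  · have hp := far_pf hn h
    have : ∀ᶠ y : ℂ × ℂ in 𝓝 (z, w), normSq y.1 ^ 3 < 100 * normSq (pf y.1 y.2) :=
      ContinuousAt.eventually_lt (by fun_prop) (by unfold pf; fun_prop)
        (by have := not_lt.1 hn; have := normSq_pos.2 hp; simp only; linarith)
    have b := P.F_sm.contDiffAt.comp _ (cda_xf c1 c2 hp)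
    exact b.congr_of_eventuallyEq (this.mono fun y a => mf_eq_F P a.le)

theorem cd_bf {β : ℝ → ℝ} (h1 : ContDiff ℝ ∞ β) (h2 : ∀ X ≥ 4, β X = (√X ^ 3)⁻¹)
    (h : z ≠ 0 ∨ w ≠ 0) : ContDiffAt ℝ ∞ (fun y : ℂ × ℂ => bf β y.1 y.2) (z, w) := by
  by_cases hn : Near z w
  · exact (cda_im (cd_cf (near_z hn))).congr_of_eventuallyEq ((ev_near hn).mono fun y => bf_near β)
  · have hp := far_pf hn h
    have b := (h1.contDiffAt.comp _ (cda_xf c1 c2 hp)).mul (cda_im (cda_ph c3 hp))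
    exact b.congr_of_eventuallyEq ((c3.continuousAt.eventually_ne hp).mono fun y a => bf_eq h2 a)

theorem sm_eta {f : ℂ → ℂ → ℝ}
    (hf : ∀ z w, z ≠ 0 ∨ w ≠ 0 → ContDiffAt ℝ ∞ (fun y : ℂ × ℂ => f y.1 y.2) (z, w)) :
    Sm fun x => P.η (sc x ^ 2) * f (zc x) (wc x) := fun x => by
  by_cases h : zc x ≠ 0 ∨ wc x ≠ 0
  · exact (P.η_sm.comp (cd_sc.pow 2)).contDiffAt.mul
      ((hf _ _ h).comp (f := fun x => (zc x, wc x)) _ (cd_zc.prodMk cd_wc).contDiffAt)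
  · push Not at h
    have a : (9 / 10 : ℝ) < sc x ^ 2 := by
      have := sph x
      simp only [h.1, h.2, map_zero] at this
      linarith
    refine (contDiffAt_const (c := 0)).congr_of_eventuallyEq ?_
    filter_upwards [continuousAt_const.eventually_lt (cd_sc.pow 2).continuous.continuousAt a]
      with y b
    rw [P.η_hi _ b.le, zero_mul]

theorem F6 (X : ℝ) : P.F X < 6 := by
  have a := (F_mono P).monotone (le_max_left X 4)
  have b : 0 < max X 4 := lt_max_of_lt_right (by norm_num)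
  rw [P.F_hi _ (le_max_right X 4)] at a
  linarith [inv_pos.2 (pow_pos b 3)]

theorem gam_hi (X : ℝ) (h : X ≥ 4) : gam P X = (√X ^ 3)⁻¹ := by
  have : X ^ 3 = (√X ^ 3) ^ 2 := by rw [← pow_mul, mul_comm, pow_mul, Real.sq_sqrt (by linarith)]
  rw [gam, P.F_hi X h, sub_sub_cancel, Real.sqrt_inv, this, Real.sqrt_sq (by positivity)]

theorem low {x : S4} (h : x ∈ WW) :
    HH P x = lev x ∧ BB P x = (ph (pp x)).im := by
  have a := sc_lt (zw_ne h.1)
  have b := h.2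
  have c := xf_nonneg (zc x) (wc x)
  have d := sq_nonneg (tt x)
  unfold lev at b
  have e := (lo_iff a).2 (by linarith)
  have f : ¬Near (zc x) (wc x) := fun n => by linarith [(near_iff h.1).1 n]
  rw [HH_lo P e, mf_far P f, P.F_lo _ (by linarith), BB, P.η_lo _ e, bf_far _ f,
    P.β_lo _ (by linarith), one_mul, one_mul]
  exact ⟨rfl, rfl⟩

end Sm0

open Sm0

theorem smo : SmoStmt := fun P =>
  { sH := fun x => (sm_eta P (fun _ _ => cd_mf P) x).add (P.k_sm.comp (cd_sc.pow 2)).contDiffAt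
    sB := sm_eta P fun _ _ => cd_bf P.β_sm P.β_hi
    sW := sm_eta P fun _ _ => cd_bf ((contDiff_const.sub P.F_sm).sqrt fun X =>
      (sub_pos.2 (F6 P X)).ne') (gam_hi P)
    iH := fun x hx y hy a _ => by rw [(low P hx.2).1, (low P hy.2).1, a]
    iB := fun x hx y hy _ a => by rw [(low P hx.2).2, (low P hy.2).2, a]
    far := fun x hx => by rw [AA, (low P hx).1]; linarith [hx.2]
    mc := fun _ _ => cd_mf P
    m0 := mf_mem P
    F6 := F6 P
    low := fun _ => lo_of_AA P }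

end Pool.Agent.MP_7ebdba_gt.sm.m

end
end MrgPart3

-- marker of a merged file
example : 731051 + 296233 = 731051 + 296233 := rfl
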