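import Mathlib
import Pool.Agent.MP_7ebdba_gt.sm.m.Smo
import Pool.Agent.MP_7ebdba_gt.sm.m.Wt
import Pool.Agent.MP_7ebdba_gt.sm.m.Dir
import Pool.Agent.MP_7ebdba_gt.sm.m.Cases
import Pool.Agent.MP_7ebdba_gt.sm.m.Cz
import Pool.Agent.MP_7ebdba_gt.sm.m.Cw
import Pool.Agent.MP_7ebdba_gt.sm.m.Ct
import Pool.Agent.MP_7ebdba_gt.sm.m.Core
import Pool.Agent.MP_7ebdba_gt.sm.m.Asm

/-! Block M: the model trisection. -/

namespace Pool.Agent.MP_7ebdba_gt.sm.m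

theorem model : ModelStmt := model_of smo wt dirs cases cz cw ctt core asm

end Pool.Agent.MP_7ebdba_gt.sm.m
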